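import Pool.Agent.R383.TM.Mod

/-!
# The graded rings over the ring of integers
-/

set_option autoImplicit false
set_option linter.unusedSectionVars false

namespace Pool.Agent.R383.TM

open Pool.Agent.Y223.G Pool.Agent.Y858.H

/-- The element `a T ^ n`. -/
noncomputable def mo {K : Type} [Field K] (a : K) (n : ℤ) : LaurentPolynomial K :=
  LaurentPolynomial.C a * LaurentPolynomial.T n

lemma mo_eq {K : Type} [Field K] (a : K) (n : ℤ) : mo a n = hm n a := by
  unfold mo hm
  exact (LaurentPolynomial.single_eq_C_mul_T a n).symm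

/-- The graded ring. -/
noncomputable def BR {O K : Type} [CommRing O] [Field K] [Algebra O K] (𝔓 : Ideal O) (e : ℕ)
    {m : ℕ} (w : Fin (m + 1) → ℕ) (z : Fin (m + 1) → K) (j : Fin (m + 1)) :
    Subring (LaurentPolynomial K) :=
  (Algebra.adjoin O ({mo 1 (-1)} ∪ {f | ∃ a ∈ 𝔓, f = mo (algebraMap O K a) e} ∪
    Set.range fun i => mo (z i / z j) (w i))).toSubring

/-- The ideal of the fixed points. -/
noncomputable def FB {O K : Type} [CommRing O] [Field K] [Algebra O K]
    (B : Subring (LaurentPolynomial K)) (𝔓 : Ideal O) (e D : ℕ) {m : ℕ} (w : Fin (m + 1) → ℕ)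
    (z : Fin (m + 1) → K) (σ : K → K) (j : Fin (m + 1)) : Ideal B :=
  Ideal.span {x | (∃ a ∈ 𝔓, (x : LaurentPolynomial K) = mo (algebraMap O K a) 0) ∨
    (∃ a ∈ 𝔓, (x : LaurentPolynomial K) =
      mo (σ (algebraMap O K a) - algebraMap O K a) ((e : ℤ) + D)) ∨
    ∃ i l, (x : LaurentPolynomial K) =
      mo ((z i * σ (z l) - z l * σ (z i)) / z j ^ 2) ((w i : ℤ) + w l + D)}

/-- The action has no fixed points outside the vertex. -/
def NF {O K : Type} [CommRing O] [Field K] [Algebra O K]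
    (B : Subring (LaurentPolynomial K)) (𝔓 : Ideal O) (e D : ℕ) {m : ℕ} (w : Fin (m + 1) → ℕ)
    (z : Fin (m + 1) → K) (σ : K → K) (j : Fin (m + 1)) : Prop :=
  ∀ x : B, (∃ n : ℕ, 0 < n ∧ ∃ a : K, (x : LaurentPolynomial K) = mo a n) →
    x ∈ (FB B 𝔓 e D w z σ j).radical

variable {k O K : Type} [CommRing k] [CommRing O] [Field K] [Algebra k O] [Algebra O K]
  [Algebra k K] [IsScalarTower k O K] {𝔓 : Ideal O} {e : ℕ} {m : ℕ} {w : Fin (m + 1) → ℕ}
  {z : Fin (m + 1) → K} {j : Fin (m + 1)}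

theorem BR_eq : BR 𝔓 e w z j = (WR k 𝔓 e w z j).toSubring := by
  ext f
  constructor
  · intro hf
    change f ∈ Algebra.adjoin O ({mo 1 (-1)} ∪ {f | ∃ a ∈ 𝔓, f = mo (algebraMap O K a) e} ∪
      Set.range fun i => mo (z i / z j) (w i)) at hf
    change f ∈ WR k 𝔓 e w z j
    induction hf using Algebra.adjoin_induction with
    | mem x hx =>
      rcases hx with (hx | ⟨a, ha, rfl⟩) | ⟨i, rfl⟩
      · rw [Set.mem_singleton_iff] at hx
        rw [hx, mo_eq]
        exact WR_s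
      · rw [mo_eq]
        exact WR_e ha
      · change mo (z i / z j) (w i) ∈ WR k 𝔓 e w z j
        rw [mo_eq]
        exact WR_z i
    | algebraMap r => exact WR_o r
    | add x y _ _ hx hy => exact Subalgebra.add_mem _ hx hy
    | mul x y _ _ hx hy => exact Subalgebra.mul_mem _ hx hy
  · intro hf
    change f ∈ WR k 𝔓 e w z j at hf
    change f ∈ Algebra.adjoin O ({mo 1 (-1)} ∪ {f | ∃ a ∈ 𝔓, f = mo (algebraMap O K a) e} ∪
      Set.range fun i => mo (z i / z j) (w i))
    unfold WR at hf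
    induction hf using Algebra.adjoin_induction with
    | mem x hx =>
      rcases hx with ((hx | ⟨a, ha, rfl⟩) | ⟨o, rfl⟩) | ⟨i, rfl⟩
      · rw [Set.mem_singleton_iff] at hx
        rw [hx, ← mo_eq]
        exact Algebra.subset_adjoin (Or.inl (Or.inl rfl))
      · rw [← mo_eq]
        exact Algebra.subset_adjoin (Or.inl (Or.inr ⟨a, ha, rfl⟩))
      · exact Subalgebra.algebraMap_mem _ o
      · rw [← mo_eq]
        exact Algebra.subset_adjoin (Or.inr ⟨i, rfl⟩)
    | algebraMap r =>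
      have h1 : algebraMap k (LP K) r = algebraMap O (LP K) (algebraMap k O r) := by
        change hm 0 (algebraMap k K r) = hm 0 (algebraMap O K (algebraMap k O r))
        rw [← IsScalarTower.algebraMap_apply k O K]
      rw [h1]
      exact Subalgebra.algebraMap_mem _ _
    | add x y _ _ hx hy => exact Subalgebra.add_mem _ hx hy
    | mul x y _ _ hx hy => exact Subalgebra.mul_mem _ hx hy

theorem WR_reg (h : IsRegularRing (BR 𝔓 e w z j)) : IsRegularRing (WR k 𝔓 e w z j) := by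
  rw [BR_eq (k := k)] at h
  exact h

theorem WR_mem {a : K} {n : ℤ} (h : mo a n ∈ BR 𝔓 e w z j) : hm n a ∈ WR k 𝔓 e w z j := by
  rw [BR_eq (k := k), mo_eq] at h
  exact h

theorem FIX_of (σ : K → K) (t : O → O) (hσ : ∀ o, σ (algebraMap O K o) = algebraMap O K (t o))
    {D : ℕ} (h : NF (BR 𝔓 e w z j) 𝔓 e D w z σ j) :
    ∀ x : WR k 𝔓 e w z j, (∃ n : ℕ, 0 < n ∧ ∃ a : K, (x : LP K) = hm n a) →
      x ∈ (FIX k 𝔓 e D w z σ t j).radical := by
  rw [BR_eq (k := k)] at h
  intro x hx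
  have h1 : (⟨x.1, x.2⟩ : (WR k 𝔓 e w z j).toSubring) ∈
      (FB (WR k 𝔓 e w z j).toSubring 𝔓 e D w z σ j).radical := by
    refine h _ ?_
    obtain ⟨n, hn, a, hxa⟩ := hx
    exact ⟨n, hn, a, by rw [mo_eq]; exact hxa⟩
  have h2 : FB (WR k 𝔓 e w z j).toSubring 𝔓 e D w z σ j = FIX k 𝔓 e D w z σ t j := by
    unfold FB FIX
    simp only [mo_eq, hσ, ← map_sub]
    rfl
  rw [h2] at h1
  exact h1

end Pool.Agent.R383.TM
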