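import Pool.Agent.Y38.H.Rwb
import Pool.Agent.Y290.G.RGCH
import Pool.Agent.Y177.G.RegAF
import Pool.Agent.Y858.H.Gche
import Pool.Agent.Y872.H.Rein

/-!
# Weighted blowups: the charts of the coordinates and the charts of invariant forms
-/

set_option autoImplicit false
set_option linter.unusedSectionVars false

namespace Pool.Agent.R383.TM

open Pool.Agent.Y223.G Pool.Agent.Y858.H
open Pool.Agent.Y38.H.Rwb (R_s R_e R_o R_m R_low R_gr R_epow R_c R_coeff R_ft)
open Pool.Agent.Y86.G5 (im mem_im im_sub im_mul im_prime im_one im_pow up mem_up up_prime)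

/-- The chart of the weighted blowup with the weight `e` of `𝔓` and the weights `W i` of the
coordinates `z i`. -/
noncomputable def WR (k : Type) {O K : Type} [CommRing k] [CommRing O] [Field K] [Algebra O K]
    [Algebra k K] (𝔓 : Ideal O) (e : ℕ) {m : ℕ} (W : Fin (m + 1) → ℕ) (z : Fin (m + 1) → K)
    (j : Fin (m + 1)) : Subalgebra k (LP K) :=
  Algebra.adjoin k ({hm (-1) 1} ∪ {f | ∃ a ∈ 𝔓, f = hm e (algebraMap O K a)} ∪
    {f | ∃ o : O, f = hm 0 (algebraMap O K o)} ∪ {f | ∃ i, f = hm (W i) (z i / z j)})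

/-- The ideal of the fixed points, in the chart of the weighted blowup. -/
noncomputable def FIX (k : Type) {O K : Type} [CommRing k] [CommRing O] [Field K] [Algebra O K]
    [Algebra k K] (𝔓 : Ideal O) (e D : ℕ) {m : ℕ} (W : Fin (m + 1) → ℕ) (z : Fin (m + 1) → K)
    (σ : K → K) (t : O → O) (j : Fin (m + 1)) : Ideal (WR k 𝔓 e W z j) :=
  Ideal.span {x | (∃ a ∈ 𝔓, (x : LP K) = hm 0 (algebraMap O K a)) ∨
    (∃ a ∈ 𝔓, (x : LP K) = hm ((e : ℤ) + D) (algebraMap O K (t a - a))) ∨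
    ∃ i l, (x : LP K) = hm ((W i : ℤ) + W l + D) ((z i * σ (z l) - z l * σ (z i)) / z j ^ 2)}

/-- Lowering the degree. -/
lemma low_mem {k K : Type} [CommRing k] [Field K] [Algebra k K] {R : Subalgebra k (LP K)}
    (hs : hm (-1) 1 ∈ R) {d e : ℤ} {x : K} (h : hm d x ∈ R) (he : e ≤ d) : hm e x ∈ R := by
  have h1 := R.mul_mem (R.pow_mem hs (d - e).toNat) h
  rw [hm_pow, one_pow, hm_mul, one_mul] at h1
  have h2 : ((d - e).toNat : ℤ) * -1 + d = e := by
    rw [Int.toNat_of_nonneg (by omega)]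
    ring
  rwa [h2] at h1

section wr

variable {k O K : Type} [CommRing k] [CommRing O] [Field K] [Algebra O K] [Algebra k K]
  {𝔓 : Ideal O} {e : ℕ} {m : ℕ} {W : Fin (m + 1) → ℕ} {z : Fin (m + 1) → K} {j : Fin (m + 1)}

lemma WR_s : (hm (-1) 1 : LP K) ∈ WR k 𝔓 e W z j :=
  Algebra.subset_adjoin (Or.inl (Or.inl (Or.inl rfl)))

lemma WR_e {a : O} (ha : a ∈ 𝔓) : hm e (algebraMap O K a) ∈ WR k 𝔓 e W z j :=
  Algebra.subset_adjoin (Or.inl (Or.inl (Or.inr ⟨a, ha, rfl⟩)))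

lemma WR_o (o : O) : hm 0 (algebraMap O K o) ∈ WR k 𝔓 e W z j :=
  Algebra.subset_adjoin (Or.inl (Or.inr ⟨o, rfl⟩))

lemma WR_z (i : Fin (m + 1)) : hm (W i) (z i / z j) ∈ WR k 𝔓 e W z j :=
  Algebra.subset_adjoin (Or.inr ⟨i, rfl⟩)

lemma prod_mon (y : Fin (m + 1) → K) (a : Fin (m + 1) → ℕ) {d : ℕ} (ha : ∑ i, a i = d) :
    ∏ i, (hm (W i : ℤ) (y i / z j)) ^ a i =
      hm ((∑ i, W i * a i : ℕ) : ℤ) ((∏ i, y i ^ a i) / z j ^ d) := by
  simp only [hm_pow]
  rw [hm_prod]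
  congr 1
  · push_cast
    exact Finset.sum_congr rfl fun i _ => mul_comm _ _
  · simp only [div_pow, Finset.prod_div_distrib, Finset.prod_pow_eq_pow_sum, ha]

lemma WR_mon (a : Fin (m + 1) → ℕ) {d : ℕ} (ha : ∑ i, a i = d) :
    hm ((∑ i, W i * a i : ℕ) : ℤ) ((∏ i, z i ^ a i) / z j ^ d) ∈ WR k 𝔓 e W z j := by
  rw [← prod_mon z a ha]
  exact Subalgebra.prod_mem _ fun i _ => Subalgebra.pow_mem _ (WR_z i) _

lemma WR_form {d : ℕ} {F : K} (hF : F ∈ FS O z d) : hm 0 (F / z j ^ d) ∈ WR k 𝔓 e W z j := by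
  unfold FS at hF
  induction hF using Submodule.span_induction with
  | mem x hx =>
    obtain ⟨a, ha, rfl⟩ := hx
    exact low_mem WR_s (WR_mon a ha) (by positivity)
  | zero => rw [zero_div, hm_zero]; exact Subalgebra.zero_mem _
  | add x y _ _ hx hy => rw [add_div, hm_add]; exact Subalgebra.add_mem _ hx hy
  | smul r x _ hx =>
    have e1 : hm 0 (r • x / z j ^ d) = hm 0 (algebraMap O K r) * hm 0 (x / z j ^ d) := by
      rw [hm_mul, Algebra.smul_def, mul_div_assoc, add_zero]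
    rw [e1]
    exact Subalgebra.mul_mem _ (WR_o r) hx

end wr

section ru

variable {k O K : Type} [CommRing k] [CommRing O] [Field K] [Algebra k O] [Algebra O K]
  [Algebra k K] [IsScalarTower k O K] {𝔓 : Ideal O} {e m : ℕ} {W : Fin (m + 1) → ℕ}
  {z : Fin (m + 1) → K} {d : ℕ} {Φ : Unit → K}

/-- monomials -/
lemma RU_mon (a : Fin (m + 1) → ℕ) (ha : ∑ i, a i = d) {n : ℤ}
    (hn : n ≤ ((∑ i, W i * a i : ℕ) : ℤ)) :
    hm n ((∏ i, z i ^ a i) / Φ ()) ∈ RW k 𝔓 e (fun _ : Unit => W) (fun _ => z) d Φ :=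
  low_mem R_s (R_m (Ω := Unit) () a ha) hn

lemma RU_two (hd : 1 ≤ d) (i j : Fin (m + 1)) :
    hm (W i) (z i * z j ^ (d - 1) / Φ ()) ∈
      RW k 𝔓 e (fun _ : Unit => W) (fun _ => z) d Φ := by
  classical
  have e1 : ∏ l, z l ^ ((if l = i then 1 else 0) + (if l = j then d - 1 else 0)) =
      z i * z j ^ (d - 1) := by
    simp only [pow_add, Finset.prod_mul_distrib]
    congr 1
    · rw [Finset.prod_eq_single i]
      · rw [if_pos rfl, pow_one]
      · intro b _ hb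
        rw [if_neg hb, pow_zero]
      · intro h; exact absurd (Finset.mem_univ i) h
    · rw [Finset.prod_eq_single j]
      · rw [if_pos rfl]
      · intro b _ hb
        rw [if_neg hb, pow_zero]
      · intro h; exact absurd (Finset.mem_univ j) h
  have e2 : ∑ l, W l * ((if l = i then 1 else 0) + (if l = j then d - 1 else 0)) =
      W i + W j * (d - 1) := by
    simp [mul_add, Finset.sum_add_distrib]
  rw [← e1]
  refine RU_mon _ ?_ ?_
  · rw [Finset.sum_add_distrib]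
    simp
    omega
  · rw [e2]
    push_cast
    nlinarith [Nat.zero_le (W j * (d - 1))]

lemma RU_t (hd : 1 ≤ d) (j : Fin (m + 1)) : hm 0 (z j ^ d / Φ ()) ∈
    RW k 𝔓 e (fun _ : Unit => W) (fun _ => z) d Φ := by
  have h := RU_two (k := k) (𝔓 := 𝔓) (e := e) (W := W) (z := z) (Φ := Φ) hd j j
  rw [← pow_succ', Nat.sub_add_cancel hd] at h
  exact low_mem R_s h (by positivity)

/-- The functions of degree zero. -/
lemma RU_notMem {R : Subalgebra k (LP K)}
    (hR : R = RW k 𝔓 e (fun _ : Unit => W) (fun _ => z) d Φ) (hd : 1 ≤ d) {O' : Type}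
    [CommRing O'] [Algebra O' K]
    (hO : ∀ o : O', ∃ o' : O, algebraMap O K o' = algebraMap O' K o)
    (hΦ : Φ () ∈ FS O' z d) (hΦ0 : Φ () ≠ 0) (Q : Ideal R) (hQ : Q.IsPrime) :
    ∃ j, hm 0 (z j ^ d / Φ ()) ∉ im R Q := by
  have hmem : ∀ x : K, x ∈ (d0 R).toSubring → hm 0 x ∈ R := fun x hx => hx
  let φ : (d0 R).toSubring →+* R :=
    { toFun := fun x => ⟨hm 0 (x : K), hmem x x.2⟩
      map_one' := rfl
      map_mul' := fun a b => by
        apply Subtype.ext
        change hm 0 ((a : K) * b) = hm 0 (a : K) * hm 0 (b : K)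
        rw [hm_mul, add_zero]
      map_zero' := by
        apply Subtype.ext
        change hm 0 (0 : K) = 0
        rw [hm_zero]
      map_add' := fun a b => by
        apply Subtype.ext
        change hm 0 ((a : K) + b) = hm 0 (a : K) + hm 0 (b : K)
        rw [hm_add] }
  have hφ : (Q.comap φ).IsPrime := Ideal.comap_isPrime φ Q
  obtain ⟨j, hj⟩ := Pool.Agent.Y177.G.exists_notMem (AlgEquiv.refl : K ≃ₐ[O'] K) 0 z d hd (Φ ())
    hΦ hΦ0 (d0 R).toSubring (fun o => by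
      obtain ⟨o', ho'⟩ := hO o
      rw [← ho']
      change hm 0 (algebraMap O K o') ∈ R
      rw [hR]
      exact R_o o') (by
      rintro x ⟨a, ha, rfl⟩
      change hm 0 ((∏ i, z i ^ a i) / Φ ()) ∈ R
      rw [hR]
      exact RU_mon (k := k) (𝔓 := 𝔓) (e := e) (W := W) (z := z) (Φ := Φ) a ha (by positivity))
    (Q.comap φ) hφ
  have ht : hm 0 (z j ^ d / Φ ()) ∈ R := by
    rw [hR]
    exact RU_t hd j
  exact ⟨j, fun h => hj ht h.2⟩

/-- Gluing. -/
lemma RU_glue {R : Subalgebra k (LP K)}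
    (hR : R = RW k 𝔓 e (fun _ : Unit => W) (fun _ => z) d Φ) (hd : 1 ≤ d) {O' : Type}
    [CommRing O'] [Algebra O' K]
    (hO : ∀ o : O', ∃ o' : O, algebraMap O K o' = algebraMap O' K o)
    (hΦ : Φ () ∈ FS O' z d) (hΦ0 : Φ () ≠ 0) {f : LP K}
    (ht : ∀ j, hm 0 (z j ^ d / Φ ()) ∈ R)
    (hf : ∀ j, f ∈ loc R (hm 0 (z j ^ d / Φ ())) (ht j)) : f ∈ R := by
  let I : Ideal R :=
    { carrier := {r | (r : LP K) * f ∈ R}
      add_mem' := by
        intro a b ha hb
        change ((a + b : R) : LP K) * f ∈ R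
        rw [AddMemClass.coe_add, add_mul]
        exact R.add_mem ha hb
      zero_mem' := by
        change ((0 : R) : LP K) * f ∈ R
        rw [ZeroMemClass.coe_zero, zero_mul]
        exact R.zero_mem
      smul_mem' := by
        intro c a ha
        change ((c • a : R) : LP K) * f ∈ R
        rw [smul_eq_mul, MulMemClass.coe_mul, mul_assoc]
        exact R.mul_mem c.2 ha }
  by_contra hcon
  have hI : I ≠ ⊤ := by
    intro h
    apply hcon
    have h1 : (1 : R) ∈ I := by rw [h]; trivial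
    have h2 : ((1 : R) : LP K) * f ∈ R := h1
    rwa [OneMemClass.coe_one, one_mul] at h2
  obtain ⟨Q, hQ, hIQ⟩ := Ideal.exists_le_maximal I hI
  obtain ⟨j, hj⟩ := RU_notMem hR hd hO hΦ hΦ0 Q hQ.isPrime
  obtain ⟨n, hn⟩ := hf j
  refine im_pow hQ.isPrime (ht j) hj n ⟨R.pow_mem (ht j) n, hIQ ?_⟩
  exact hn

end ru

end Pool.Agent.R383.TM
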