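import Pool.Agent.R383.TM.Chart

/-!
# Weighted blowups over a localization of the base
-/

set_option autoImplicit false
set_option linter.unusedSectionVars false

namespace Pool.Agent.R383.TM

open Pool.Agent.Y223.G Pool.Agent.Y858.H
open Pool.Agent.Y38.H.Rwb (R_s R_e R_o R_m R_low R_gr R_epow R_c R_coeff R_ft)
open Pool.Agent.Y86.G5 (im mem_im im_sub im_mul im_prime im_one im_pow up mem_up up_prime)

lemma loc_eq' {k K : Type} [CommRing k] [Field K] [Algebra k K] {R R' : Subalgebra k (LP K)}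
    {t v s : K} (ht : hm 0 t ∈ R) (hv : hm 0 v ∈ R') (hsv : hm 0 (s * v) ∈ R')
    (hs' : hm 0 s⁻¹ ∈ R) (hs0 : s ≠ 0) (hvt : v * t = 1) (h1 : R' ≤ loc R (hm 0 t) ht)
    (h2 : R ≤ loc R' (hm 0 (s * v)) hsv) : loc R (hm 0 t) ht = loc R' (hm 0 (s * v)) hsv := by
  ext x
  constructor
  · rintro ⟨n, hn⟩
    obtain ⟨N, hN⟩ := h2 hn
    refine ⟨N, ?_⟩
    have h : (hm 0 v * hm 0 t : LP K) = 1 := by rw [hm_mul, hvt, add_zero, hm_one]
    have e : hm 0 (s * v) ^ N * x = hm 0 v ^ n * (hm 0 (s * v) ^ N * (hm 0 t ^ n * x)) := by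
      calc hm 0 (s * v) ^ N * x = (hm 0 v * hm 0 t) ^ n * (hm 0 (s * v) ^ N * x) := by
            rw [h, one_pow, one_mul]
        _ = _ := by ring
    rw [e]
    exact R'.mul_mem (R'.pow_mem hv _) hN
  · rintro ⟨n, hn⟩
    obtain ⟨N, hN⟩ := h1 hn
    refine ⟨N, ?_⟩
    have h : (hm 0 s⁻¹ * (hm 0 (s * v) * hm 0 t) : LP K) = 1 := by
      rw [hm_mul, hm_mul, mul_assoc, hvt, mul_one, inv_mul_cancel₀ hs0, add_zero, add_zero, hm_one]
    have e : hm 0 t ^ N * x =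
        hm 0 s⁻¹ ^ n * (hm 0 t ^ n * (hm 0 t ^ N * (hm 0 (s * v) ^ n * x))) := by
      calc hm 0 t ^ N * x = (hm 0 s⁻¹ * (hm 0 (s * v) * hm 0 t)) ^ n * (hm 0 t ^ N * x) := by
            rw [h, one_pow, one_mul]
        _ = _ := by ring
    rw [e]
    exact R.mul_mem (R.pow_mem hs' _) (R.mul_mem (R.pow_mem ht _) hN)

section loc

variable {k O K : Type} [CommRing k] [CommRing O] [IsDomain O] [Field K] [Algebra k O]
  [Algebra O K] [Algebra k K] [IsScalarTower k O K] {s : k} {𝔔 𝔔' : Ideal (OL O (K := K) s)}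
  {𝔓 𝔓' : Ideal O} {e m : ℕ} {W W' : Fin (m + 1) → ℕ} {z : Fin (m + 1) → K} {d : ℕ}
  {Φ : Unit → K} {R R' : Subalgebra k (LP K)}

lemma t_mem (hR : R = RW k 𝔔 e (fun _ : Unit => W) (fun _ => z) d Φ) (hd : 1 ≤ d)
    (j : Fin (m + 1)) : hm 0 (z j ^ d / Φ ()) ∈ R := by
  rw [hR]
  exact RU_t hd j

lemma WR_le_loc (hR : R = RW k 𝔔 e (fun _ : Unit => W) (fun _ => z) d Φ)
    (hz : ∀ j, z j ≠ 0) (hd : 1 ≤ d)
    (hP : ∀ a ∈ 𝔓, (⟨algebraMap O K a, mem_OLb s a⟩ : OL O (K := K) s) ∈ 𝔔) (j : Fin (m + 1))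
    (ht : hm 0 (z j ^ d / Φ ()) ∈ R) :
    WR k 𝔓 e W z j ≤ loc R (hm 0 (z j ^ d / Φ ())) ht := by
  unfold WR
  rw [Algebra.adjoin_le_iff]
  rintro f (((hf | ⟨a, ha, rfl⟩) | ⟨o, rfl⟩) | ⟨i, rfl⟩)
  · rw [hf]
    refine le_loc _ _ _ ?_
    rw [hR]
    exact R_s
  · refine le_loc _ _ _ ?_
    rw [hR]
    exact R_e (hP a ha)
  · refine le_loc _ _ _ ?_
    rw [hR]
    exact R_o (⟨algebraMap O K o, mem_OLb s o⟩ : OL O (K := K) s)
  · refine ⟨1, ?_⟩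
    rw [pow_one, hm_mul, zero_add]
    have e1 : z j ^ d / Φ () * (z i / z j) = z i * z j ^ (d - 1) / Φ () := by
      obtain ⟨d', rfl⟩ : ∃ d', d = d' + 1 := ⟨d - 1, by omega⟩
      rw [Nat.add_sub_cancel]
      have := hz j
      field_simp
      ring
    rw [e1, hR]
    exact RU_two hd i j

lemma RU_le_loc (hR : R = RW k 𝔔 e (fun _ : Unit => W) (fun _ => z) d Φ)
    (hz : ∀ j, z j ≠ 0) (hΦ0 : Φ () ≠ 0) (hΦ : Φ () ∈ FS O z d)
    (hrep : ∀ b ∈ 𝔔, ∃ n : ℕ, ∃ a ∈ 𝔓, algebraMap k K s ^ n * (b : K) = algebraMap O K a)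
    (j : Fin (m + 1))
    (hv : hm 0 (algebraMap k K s * (Φ () / z j ^ d)) ∈ WR k 𝔓 e W z j) :
    R ≤ loc (WR k 𝔓 e W z j) (hm 0 (algebraMap k K s * (Φ () / z j ^ d))) hv := by
  have hv' : hm 0 (Φ () / z j ^ d) ∈ WR k 𝔓 e W z j := WR_form hΦ
  have key : ∀ (c : ℤ) (n : ℕ) (x y : K), algebraMap k K s ^ n * x = y →
      hm c y ∈ WR k 𝔓 e W z j →
      hm 0 (algebraMap k K s * (Φ () / z j ^ d)) ^ n * hm c x ∈ WR k 𝔓 e W z j := by
    intro c n x y hxy hy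
    have e1 : (hm 0 (algebraMap k K s * (Φ () / z j ^ d)) ^ n * hm c x : LP K) =
        hm 0 (Φ () / z j ^ d) ^ n * hm c y := by
      rw [hm_pow, hm_pow, hm_mul, hm_mul, ← hxy]
      congr 1
      ring
    rw [e1]
    exact Subalgebra.mul_mem _ (Subalgebra.pow_mem _ hv' _) hy
  rw [hR]
  unfold RW
  rw [Algebra.adjoin_le_iff]
  rintro f (((hf | ⟨b, hb, rfl⟩) | ⟨o, rfl⟩) | ⟨ω, a, ha, rfl⟩)
  · rw [hf]
    exact le_loc _ _ _ WR_s
  · obtain ⟨n, a, ha, h⟩ := hrep b hb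
    exact ⟨n, key _ _ _ _ h (WR_e ha)⟩
  · obtain ⟨n, y, h⟩ := o.2
    exact ⟨n, key _ _ _ _ h (WR_o y)⟩
  · refine ⟨1, ?_⟩
    have e1 : (hm 0 (algebraMap k K s * (Φ () / z j ^ d)) ^ 1 *
        hm ((∑ i, W i * a i : ℕ) : ℤ) ((∏ i, z i ^ a i) / Φ ω) : LP K) =
        hm 0 (algebraMap O K (algebraMap k O s)) *
          hm ((∑ i, W i * a i : ℕ) : ℤ) ((∏ i, z i ^ a i) / z j ^ d) := by
      rw [pow_one, hm_mul, hm_mul, ← IsScalarTower.algebraMap_apply k O K]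
      congr 1
      have := hz j
      field_simp
    exact (congrArg (fun x => x ∈ WR k 𝔓 e W z j) e1).mpr
      (Subalgebra.mul_mem _ (WR_o _) (WR_mon a ha))

/-- **Regularity of the charts of invariant forms.** -/
theorem RU_reg [IsNoetherianRing k] (hR : R = RW k 𝔔 e (fun _ : Unit => W) (fun _ => z) d Φ)
    (hft : Algebra.FiniteType k R) (hs : algebraMap k K s ≠ 0) (hz : ∀ j, z j ≠ 0) (hd : 1 ≤ d)
    (hΦ0 : Φ () ≠ 0) (hΦ : Φ () ∈ FS O z d)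
    (hP : ∀ a ∈ 𝔓, (⟨algebraMap O K a, mem_OLb s a⟩ : OL O (K := K) s) ∈ 𝔔)
    (hrep : ∀ b ∈ 𝔔, ∃ n : ℕ, ∃ a ∈ 𝔓, algebraMap k K s ^ n * (b : K) = algebraMap O K a)
    (hreg : ∀ j, IsRegularRing (WR k 𝔓 e W z j)) : IsRegularRing R := by
  have hN : IsNoetherianRing R := Algebra.FiniteType.isNoetherianRing k R
  rw [isRegularRing_iff]
  intro Q hQ
  have hO : ∀ o : O, ∃ o' : OL O (K := K) s,
      algebraMap (OL O (K := K) s) K o' = algebraMap O K o := fun o => ⟨⟨_, mem_OLb s o⟩, rfl⟩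
  obtain ⟨j, hj⟩ := RU_notMem hR hd hO hΦ hΦ0 Q hQ
  have ht := t_mem hR hd j
  have hv' : hm 0 (Φ () / z j ^ d) ∈ WR k 𝔓 e W z j := WR_form hΦ
  have hv : hm 0 (algebraMap k K s * (Φ () / z j ^ d)) ∈ WR k 𝔓 e W z j := by
    have h1 := Subalgebra.mul_mem (WR k 𝔓 e W z j) (WR_o (algebraMap k O s)) hv'
    rwa [hm_mul, ← IsScalarTower.algebraMap_apply k O K, add_zero] at h1
  have hvt : Φ () / z j ^ d * (z j ^ d / Φ ()) = 1 := by
    have := hz j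
    field_simp
  have hs' : hm 0 (algebraMap k K s)⁻¹ ∈ R := by
    rw [hR]
    exact R_o (⟨_, Pool.Agent.Y177.G.inv_mem_OL s hs⟩ : OL O (K := K) s)
  refine Pool.Agent.Y290.G.regular_atPrime ht
    (isUnit_hm (div_ne_zero (pow_ne_zero _ (hz j)) hΦ0)) ?_ Q (fun h => hj ⟨_, h⟩)
  rw [loc_eq' ht hv' hv hs' hs hvt (WR_le_loc hR hz hd hP j ht)
    (RU_le_loc hR hz hΦ0 hΦ hrep j hv)]
  exact regular_loc (hreg j) hv
    (isUnit_hm (mul_ne_zero hs (div_ne_zero hΦ0 (pow_ne_zero _ (hz j)))))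

/-- the powers of two monomials -/
lemma prod_pair {L : Subalgebra k (LP K)} (D : ℕ) {ι : Type} (S : Finset ι) (x y : ι → LP K)
    (a : ι → ℕ) (hx : ∀ i, x i ∈ L) (hy : ∀ i, y i ∈ L) (hxy : ∀ i, hm D 1 * (x i - y i) ∈ L) :
    ∏ i ∈ S, x i ^ a i ∈ L ∧ ∏ i ∈ S, y i ^ a i ∈ L ∧
      hm D 1 * (∏ i ∈ S, x i ^ a i - ∏ i ∈ S, y i ^ a i) ∈ L := by
  classical
  have hmul : ∀ u v u' v' : LP K, u ∈ L → v ∈ L → u' ∈ L → v' ∈ L → hm D 1 * (u - v) ∈ L →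
      hm D 1 * (u' - v') ∈ L → hm D 1 * (u * u' - v * v') ∈ L := by
    intro u v u' v' h1 h2 h3 h4 h5 h6
    have e1 : hm D 1 * (u * u' - v * v') = (hm D 1 * (u - v)) * u' + v * (hm D 1 * (u' - v')) := by
      ring
    rw [e1]
    exact L.add_mem (L.mul_mem h5 h3) (L.mul_mem h2 h6)
  have hpow : ∀ i (n : ℕ), hm D 1 * (x i ^ n - y i ^ n) ∈ L := by
    intro i n
    induction n with
    | zero => rw [pow_zero, pow_zero, sub_self, mul_zero]; exact L.zero_mem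
    | succ n ih =>
      rw [pow_succ, pow_succ]
      exact hmul _ _ _ _ (L.pow_mem (hx i) n) (L.pow_mem (hy i) n) (hx i) (hy i) ih (hxy i)
  induction S using Finset.induction_on with
  | empty =>
    refine ⟨L.one_mem, L.one_mem, ?_⟩
    rw [Finset.prod_empty, Finset.prod_empty, sub_self, mul_zero]
    exact L.zero_mem
  | insert i S hi ih =>
    obtain ⟨h1, h2, h3⟩ := ih
    rw [Finset.prod_insert hi, Finset.prod_insert hi]
    exact ⟨L.mul_mem (L.pow_mem (hx i) _) h1, L.mul_mem (L.pow_mem (hy i) _) h2,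
      hmul _ _ _ _ (L.pow_mem (hx i) _) (L.pow_mem (hy i) _) h1 h2 (hpow i _) h3⟩

/-- the action on a monomial, multiplied by `z j ^ d / Φ` -/
lemma act_mon (σ : K ≃ₐ[k] K) (hz : ∀ j, z j ≠ 0) (hσΦ : σ (Φ ()) = Φ ()) (j : Fin (m + 1))
    (a : Fin (m + 1) → ℕ) (ha : ∑ i, a i = d) (W : Fin (m + 1) → ℕ) :
    tl σ (hm ((∑ i, W i * a i : ℕ) : ℤ) ((∏ i, z i ^ a i) / Φ ())) =
      hm 0 (z j ^ d / Φ ()) * ∏ i, (hm (W i : ℤ) (σ (z i) / z j)) ^ a i := by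
  rw [tl_hm, prod_mon (fun i => σ (z i)) a ha, hm_mul, zero_add, map_div₀, map_prod, hσΦ]
  congr 1
  simp only [map_pow]
  have := hz j
  field_simp

lemma id_mon (hz : ∀ j, z j ≠ 0) (j : Fin (m + 1))
    (a : Fin (m + 1) → ℕ) (ha : ∑ i, a i = d) (W : Fin (m + 1) → ℕ) :
    (hm ((∑ i, W i * a i : ℕ) : ℤ) ((∏ i, z i ^ a i) / Φ ()) : LP K) =
      hm 0 (z j ^ d / Φ ()) * ∏ i, (hm (W i : ℤ) (z i / z j)) ^ a i := by
  rw [prod_mon z a ha, hm_mul, zero_add]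
  congr 1
  have := hz j
  field_simp

/-- **The action on the charts.** -/
theorem RU_stab (hR : R = RW k 𝔔 e (fun _ : Unit => W) (fun _ => z) d Φ)
    (hR' : R' = RW k 𝔔' e (fun _ : Unit => W') (fun _ => z) d Φ) (hz : ∀ j, z j ≠ 0)
    (hd : 1 ≤ d) (hΦ0 : Φ () ≠ 0) (hΦ : Φ () ∈ FS O z d)
    (hP : ∀ a ∈ 𝔓', (⟨algebraMap O K a, mem_OLb s a⟩ : OL O (K := K) s) ∈ 𝔔')
    (σ : K ≃ₐ[k] K) (hσΦ : σ (Φ ()) = Φ ()) (t : OL O (K := K) s → OL O (K := K) s)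
    (hσo : ∀ o : OL O (K := K) s, σ (o : K) = (t o : K)) (ht : ∀ b ∈ 𝔔, t b ∈ 𝔔')
    (hlin : ∀ i j, hm (W i) (σ (z i) / z j) ∈ WR k 𝔓' e W' z j) :
    ∀ f ∈ R, tl σ f ∈ R' := by
  have hO : ∀ o : O, ∃ o' : OL O (K := K) s,
      algebraMap (OL O (K := K) s) K o' = algebraMap O K o := fun o => ⟨⟨_, mem_OLb s o⟩, rfl⟩
  intro f hf
  rw [hR] at hf
  unfold RW at hf
  induction hf using Algebra.adjoin_induction with
  | mem x hx =>
    rcases hx with ((hx | ⟨b, hb, rfl⟩) | ⟨o, rfl⟩) | ⟨ω, a, ha, rfl⟩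
    · rw [hx, tl_hm, map_one, hR']
      exact R_s
    · rw [tl_hm]
      have h1 : σ (algebraMap (OL O (K := K) s) K b) = algebraMap (OL O (K := K) s) K (t b) :=
        hσo b
      rw [h1, hR']
      exact R_e (ht b hb)
    · rw [tl_hm]
      have h1 : σ (algebraMap (OL O (K := K) s) K o) = algebraMap (OL O (K := K) s) K (t o) :=
        hσo o
      rw [h1, hR']
      exact R_o (t o)
    · refine RU_glue hR' hd hO hΦ hΦ0 (t_mem hR' hd) fun j => ?_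
      have h1 := WR_le_loc hR' hz hd hP j (t_mem hR' hd j)
      have h2 := act_mon (Φ := Φ) σ hz hσΦ j a ha W
      exact (congrArg (fun x => x ∈ loc R' (hm 0 (z j ^ d / Φ ())) (t_mem hR' hd j)) h2).mpr
        (Subalgebra.mul_mem _ (le_loc _ _ _ (t_mem hR' hd j))
          (Subalgebra.prod_mem _ fun i _ => Subalgebra.pow_mem _ (h1 (hlin i j)) _))
  | algebraMap r =>
    rw [AlgEquiv.commutes]
    exact R'.algebraMap_mem r
  | add x y _ _ hx hy =>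
    rw [map_add]
    exact R'.add_mem hx hy
  | mul x y _ _ hx hy =>
    rw [map_mul]
    exact R'.mul_mem hx hy

/-- **The difference operator on the charts.** -/
theorem RU_delta (hR : R = RW k 𝔔 e (fun _ : Unit => W) (fun _ => z) d Φ) (hz : ∀ j, z j ≠ 0)
    (hd : 1 ≤ d) (hΦ0 : Φ () ≠ 0) (hΦ : Φ () ∈ FS O z d)
    (hP : ∀ a ∈ 𝔓, (⟨algebraMap O K a, mem_OLb s a⟩ : OL O (K := K) s) ∈ 𝔔)
    (σ : K ≃ₐ[k] K) (hσΦ : σ (Φ ()) = Φ ()) (t : OL O (K := K) s → OL O (K := K) s)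
    (hσo : ∀ o : OL O (K := K) s, σ (o : K) = (t o : K)) (hst : ∀ f ∈ R, tl σ f ∈ R)
    {l D : ℕ} (hD : D ≤ e * l) (hdv : ∀ o, t o - o ∈ 𝔔 ^ (l + 1))
    (hlin : ∀ i j, hm (W i) (σ (z i) / z j) ∈ WR k 𝔓 e W z j)
    (hlinD : ∀ i j, hm ((W i : ℤ) + D) ((σ (z i) - z i) / z j) ∈ WR k 𝔓 e W z j) :
    ∀ f ∈ R, hm D 1 * (tl σ f - f) ∈ R := by
  have hO : ∀ o : O, ∃ o' : OL O (K := K) s,
      algebraMap (OL O (K := K) s) K o' = algebraMap O K o := fun o => ⟨⟨_, mem_OLb s o⟩, rfl⟩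
  have hss : hm (-1) 1 ∈ R := by rw [hR]; exact R_s
  have hep : ∀ o : OL O (K := K) s, hm ((e * (l + 1) : ℕ) : ℤ) ((t o : K) - o) ∈ R := by
    intro o
    rw [hR]
    exact R_epow (l + 1) (hdv o)
  intro f hf
  have hfR := hf
  rw [hR] at hf
  unfold RW at hf
  clear hfR
  have hall : f ∈ R ∧ hm D 1 * (tl σ f - f) ∈ R := by
    induction hf using Algebra.adjoin_induction with
    | mem x hx =>
      rcases hx with ((hx | ⟨b, hb, rfl⟩) | ⟨o, rfl⟩) | ⟨ω, a, ha, rfl⟩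
      · rw [hx, tl_hm, map_one, sub_self, mul_zero]
        exact ⟨hss, R.zero_mem⟩
      · refine ⟨by rw [hR]; exact R_e hb, ?_⟩
        rw [tl_hm, ← hm_sub, hm_mul, one_mul]
        have h1 : σ (algebraMap (OL O (K := K) s) K b) = (t b : K) := hσo b
        rw [h1]
        refine low_mem hss (hep b) ?_
        push_cast
        nlinarith
      · refine ⟨by rw [hR]; exact R_o o, ?_⟩
        rw [tl_hm, ← hm_sub, hm_mul, one_mul]
        have h1 : σ (algebraMap (OL O (K := K) s) K o) = (t o : K) := hσo o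
        rw [h1]
        refine low_mem hss (hep o) ?_
        push_cast
        nlinarith
      · refine ⟨by rw [hR]; exact R_m ω a ha, ?_⟩
        refine RU_glue hR hd hO hΦ hΦ0 (t_mem hR hd) fun j => ?_
        have h1 := WR_le_loc hR hz hd hP j (t_mem hR hd j)
        have h2 := act_mon (Φ := Φ) σ hz hσΦ j a ha W
        have h3 := id_mon (Φ := Φ) hz j a ha W
        obtain ⟨-, -, h4⟩ := prod_pair (L := loc R (hm 0 (z j ^ d / Φ ())) (t_mem hR hd j)) D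
          Finset.univ (fun i => hm (W i : ℤ) (σ (z i) / z j)) (fun i => hm (W i : ℤ) (z i / z j)) a
          (fun i => h1 (hlin i j)) (fun i => h1 (WR_z i)) (fun i => by
            have h5 := h1 (hlinD i j)
            rw [sub_div, hm_sub] at h5
            rw [mul_sub, hm_mul, hm_mul, one_mul, one_mul, add_comm (D : ℤ)]
            exact h5)
        have h6 : hm D 1 * (tl σ (hm ((∑ i, W i * a i : ℕ) : ℤ) ((∏ i, z i ^ a i) / Φ ())) -
            hm ((∑ i, W i * a i : ℕ) : ℤ) ((∏ i, z i ^ a i) / Φ ())) =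
            hm 0 (z j ^ d / Φ ()) * (hm D 1 * (∏ i, (hm (W i : ℤ) (σ (z i) / z j)) ^ a i -
              ∏ i, (hm (W i : ℤ) (z i / z j)) ^ a i)) := by
          rw [h2]
          conv_lhs => rw [h3]
          ring
        exact (congrArg (fun x => x ∈ loc R (hm 0 (z j ^ d / Φ ())) (t_mem hR hd j)) h6).mpr
          (Subalgebra.mul_mem _ (le_loc _ _ _ (t_mem hR hd j)) h4)
    | algebraMap r =>
      rw [AlgEquiv.commutes, sub_self, mul_zero]
      exact ⟨R.algebraMap_mem r, R.zero_mem⟩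
    | add x y _ _ hx hy =>
      refine ⟨R.add_mem hx.1 hy.1, ?_⟩
      have e1 : hm D 1 * (tl σ (x + y) - (x + y)) =
          hm D 1 * (tl σ x - x) + hm D 1 * (tl σ y - y) := by
        rw [map_add]
        ring
      rw [e1]
      exact R.add_mem hx.2 hy.2
    | mul x y _ _ hx hy =>
      refine ⟨R.mul_mem hx.1 hy.1, ?_⟩
      have e1 : hm D 1 * (tl σ (x * y) - (x * y)) =
          (hm D 1 * (tl σ x - x)) * tl σ y + x * (hm D 1 * (tl σ y - y)) := by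
        rw [map_mul]
        ring
      rw [e1]
      exact R.add_mem (R.mul_mem hx.2 (hst _ hy.1)) (R.mul_mem hx.1 hy.2)
  exact hall.2

end loc

end Pool.Agent.R383.TM
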