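import Pool.Agent.R383.TM.Nd
import Pool.Agent.Y987.H.Ecch
import Pool.Agent.Y223.G.Stm12
import Pool.Agent.Y434.G.RegG

/-!
# Weighted blowups with nondegenerate action of the wild inertia groups
-/

set_option autoImplicit false
set_option linter.unusedSectionVars false

namespace Pool.Agent.R383.TM

open Pool.Agent.Y223.G Pool.Agent.Y858.H Pool.Agent.Y987.H
open Pool.Agent.Y38.H.Rwb (R_s R_e R_o R_m R_low R_gr R_epow R_c R_coeff R_ft)

section wild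

variable {k O G : Type} [CommRing k] [CommRing O] [Group G] [Algebra k O]

/-- `g` is in the wild inertia group of `𝔓`. -/
def Wild (T : G →* (O ≃ₐ[k] O)) (g : G) (𝔓 : Ideal O) : Prop :=
  (∀ x, T g x - x ∈ 𝔓) ∧ ∀ x ∈ 𝔓, T g x - x ∈ 𝔓 ^ 2

/-- The wild inertia group. -/
def wildSub (T : G →* (O ≃ₐ[k] O)) (𝔓 : Ideal O) : Subgroup G where
  carrier := {g | Wild T g 𝔓}
  mul_mem' := by
    rintro a b ⟨ha, ha'⟩ ⟨hb, hb'⟩
    refine ⟨fun x => ?_, fun x hx => ?_⟩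
    · have h1 : T (a * b) x - x = (T a (T b x) - T b x) + (T b x - x) := by
        rw [map_mul, AlgEquiv.mul_apply]
        ring
      rw [h1]
      exact 𝔓.add_mem (ha _) (hb _)
    · have h1 : T (a * b) x - x = (T a (T b x) - T b x) + (T b x - x) := by
        rw [map_mul, AlgEquiv.mul_apply]
        ring
      rw [h1]
      refine (𝔓 ^ 2).add_mem (ha' _ ?_) (hb' _ hx)
      have h2 := 𝔓.add_mem (hb x) hx
      rwa [sub_add_cancel] at h2
  one_mem' := by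
    refine ⟨fun x => ?_, fun x _ => ?_⟩
    · rw [map_one, AlgEquiv.one_apply, sub_self]
      exact 𝔓.zero_mem
    · rw [map_one, AlgEquiv.one_apply, sub_self]
      exact (𝔓 ^ 2).zero_mem
  inv_mem' := by
    rintro a ⟨ha, ha'⟩
    have h1 : ∀ x, T a⁻¹ x - x = -(T a (T a⁻¹ x) - T a⁻¹ x) := by
      intro x
      have h2 : T a (T a⁻¹ x) = x := by
        rw [← AlgEquiv.mul_apply, ← map_mul, mul_inv_cancel, map_one, AlgEquiv.one_apply]
      rw [h2]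
      ring
    refine ⟨fun x => ?_, fun x hx => ?_⟩
    · rw [h1]
      exact 𝔓.neg_mem (ha _)
    · rw [h1]
      refine (𝔓 ^ 2).neg_mem (ha' _ ?_)
      have h2 : T a⁻¹ x = (T a⁻¹ x - x) + x := by ring
      rw [h2, h1]
      exact 𝔓.add_mem (𝔓.neg_mem (ha _)) hx

lemma mem_wildSub {T : G →* (O ≃ₐ[k] O)} {𝔓 : Ideal O} {g : G} :
    g ∈ wildSub T 𝔓 ↔ Wild T g 𝔓 := Iff.rfl

lemma zpowers_prime {p : ℕ} (hp : p.Prime) {τ g : G} (hτ : τ ^ p = 1)
    (hg : g ∈ Subgroup.zpowers τ) (hg1 : g ≠ 1) : τ ∈ Subgroup.zpowers g := by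
  obtain ⟨n, rfl⟩ := Subgroup.mem_zpowers_iff.1 hg
  have hk : ¬ (p : ℤ) ∣ n := by
    rintro ⟨c, rfl⟩
    apply hg1
    rw [zpow_mul, zpow_natCast, hτ, one_zpow]
  obtain ⟨a, b, hab⟩ := (Nat.prime_iff_prime_int.1 hp).coprime_iff_not_dvd.2 hk
  refine Subgroup.mem_zpowers_iff.2 ⟨b, ?_⟩
  have h1 : τ ^ (a * (p : ℤ) + b * n) = (τ ^ n) ^ b := by
    rw [zpow_add, mul_comm a, zpow_mul, zpow_natCast, hτ, one_zpow, one_mul, mul_comm b, zpow_mul]
  rw [← h1, hab, zpow_one]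

end wild

/-- The weights and the hypotheses on the action: the weighted blowups are regular, they are
permuted by the group, and the wild inertia groups have the leading form without zeros outside
the vertex. -/
structure WD (k O K G : Type) [CommRing k] [CommRing O] [Field K] [Group G]
    [Algebra k O] [Algebra O K] [Algebra k K] (ρ : G →* (K ≃ₐ[k] K))
    (T : G →* (O ≃ₐ[k] O)) {m : ℕ} (z : Fin (m + 1) → K) (e : Ideal O → ℕ)
    (W : Ideal O → Fin (m + 1) → ℕ) : Prop where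
  e0 : ∀ 𝔓 : Ideal O, 0 < e 𝔓
  rg : ∀ 𝔓 : Ideal O, 𝔓.IsMaximal → (∃ g, g ≠ 1 ∧ Wild T g 𝔓) → ∀ j,
    IsRegularRing (WR k 𝔓 (e 𝔓) (W 𝔓) z j)
  eq : ∀ 𝔓 : Ideal O, 𝔓.IsMaximal → (∃ g, g ≠ 1 ∧ Wild T g 𝔓) → ∀ (g : G) (𝔓' : Ideal O),
    (∀ o, o ∈ 𝔓 ↔ T g o ∈ 𝔓') → e 𝔓' = e 𝔓 ∧
      ∀ i j, hm (W 𝔓 i) (ρ g (z i) / z j) ∈ WR k 𝔓' (e 𝔓') (W 𝔓') z j
  dl : ∀ 𝔓 : Ideal O, 𝔓.IsMaximal → ∀ g, g ≠ 1 → Wild T g 𝔓 → ∃ l D : ℕ, 0 < D ∧
    D ≤ e 𝔓 * l ∧ (∀ o, T g o - o ∈ 𝔓 ^ (l + 1)) ∧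
    (∀ i j, hm ((W 𝔓 i : ℤ) + D) ((ρ g (z i) - z i) / z j) ∈ WR k 𝔓 (e 𝔓) (W 𝔓) z j) ∧
    ∀ j, ∀ x : WR k 𝔓 (e 𝔓) (W 𝔓) z j, (∃ n : ℕ, 0 < n ∧ ∃ a : K, (x : LP K) = hm n a) →
      x ∈ (FIX k 𝔓 (e 𝔓) D (W 𝔓) z (ρ g) (T g) j).radical

section ctr

variable {k O K : Type} [CommRing k] [CommRing O] [IsDomain O] [Field K] [Algebra k O]
  [Algebra O K] [Algebra k K] [IsScalarTower k O K]

lemma ctr_rep {s : k} {𝔔 : Ideal (OL O (K := K) s)} (b : OL O (K := K) s) (hb : b ∈ 𝔔) :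
    ∃ n : ℕ, ∃ a ∈ ctr s 𝔔, algebraMap k K s ^ n * (b : K) = algebraMap O K a := by
  obtain ⟨x, n, y, hxy⟩ := b
  refine ⟨n, y, ?_, hxy⟩
  rw [mem_ctr]
  have h2 : (⟨algebraMap O K y, mem_OLb s y⟩ : OL O (K := K) s) =
      ⟨algebraMap k K s ^ n, Subalgebra.pow_mem _ (Subalgebra.algebraMap_mem _ s) n⟩ *
        ⟨x, n, y, hxy⟩ := Subtype.ext hxy.symm
  rw [h2]
  exact 𝔔.mul_mem_left _ hb

lemma ctr_pow {s : k} {𝔔 : Ideal (OL O (K := K) s)} (n : ℕ) {a : O} (ha : a ∈ ctr s 𝔔 ^ n) :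
    (⟨algebraMap O K a, mem_OLb s a⟩ : OL O (K := K) s) ∈ 𝔔 ^ n := by
  let φ : O →+* OL O (K := K) s :=
    { toFun := fun a => ⟨algebraMap O K a, mem_OLb s a⟩
      map_one' := Subtype.ext (map_one _)
      map_mul' := fun a b => Subtype.ext (map_mul _ _ _)
      map_zero' := Subtype.ext (map_zero _)
      map_add' := fun a b => Subtype.ext (map_add _ _ _) }
  have h1 : (ctr s 𝔔).map φ ≤ 𝔔 := by
    rw [Ideal.map_le_iff_le_comap]
    intro x hx
    exact mem_ctr.1 hx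
  have h2 : (ctr s 𝔔 ^ n).map φ ≤ 𝔔 ^ n := by
    rw [Ideal.map_pow]
    exact Ideal.pow_right_mono h1 n
  exact h2 (Ideal.mem_map_of_mem φ ha)

end ctr

/-- **The charts are regular outside the vertex.** -/
theorem w_CH (hCH : S_CHW) (hRWB : S_RWB) (hREGL : S_REGL)
    (k O M Y Y₂ K K₂ G : Type) [CommRing k] [IsDomain k] [IsNoetherianRing k]
    [CommRing O] [IsDomain O] [IsDedekindDomain O] [Field M] [Field Y] [Field Y₂] [Field K]
    [Field K₂] [Group G] [Finite G] [Algebra k O] [Algebra O K]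
    [Algebra k K] [IsScalarTower k O K] [Algebra M K] [Algebra k Y] [Algebra k Y₂] [Algebra k K₂]
    (ι : Y →ₐ[k] K) (ι₂ : Y₂ →ₐ[k] K₂) (εY : LP Y →ₐ[k] Y₂) (ε : LP K →ₐ[k] K₂)
    (ρ : G →* (K ≃ₐ[k] K)) (ρ₂ : G →* (K₂ ≃ₐ[k] K₂)) (hE : Ext2M ι ι₂ εY ε ρ ρ₂)
    (T : G →* (O ≃ₐ[k] O)) (m : ℕ) (z : Fin (m + 1) → K)
    (hH : GHL k O M Y K G Unit ι ρ T m (fun _ => z)) (e : Ideal O → ℕ)
    (W : Ideal O → Fin (m + 1) → ℕ) (hD : WD k O K G ρ T z e W)
    (s : k) (_ : IsDedekindDomain (OL O (K := K) s))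
    (Tb : G →* (OL O (K := K) s ≃ₐ[k] OL O (K := K) s)) (N : Type) [Finite N]
    (𝔔 : N → Ideal (OL O (K := K) s)) (p l : N → ℕ) (τ : N → G) (π : OL O (K := K) s)
    (hs : s ≠ 0) (hL : LocE k (OL O (K := K) s) K G ρ Tb 𝔔 p l τ π)
    (hin : ∀ i, ∃ g, g ≠ 1 ∧ (∀ x, Tb g x - x ∈ 𝔔 i) ∧ ∀ x ∈ 𝔔 i, Tb g x - x ∈ 𝔔 i ^ 2) :
    ∃ (e : N → ℕ) (W : N → Unit → Fin (m + 1) → ℕ), (∀ i, 0 < e i) ∧ ∀ (d : ℕ) (Φ : Unit → K),
      1 ≤ d → FmL k O K G Unit ρ (fun _ => z) d Φ →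
      Ch (res ι₂ (GRW O ε (fun _ => z) s 𝔔 e W (π : K) d Φ)) := by
  have hsK : algebraMap k K s ≠ 0 := fun h => hs (hH.injk (by rw [h, map_zero]))
  have hOK : ∀ o : O, algebraMap O K o ∈ OL O (K := K) s := fun o => mem_OLb s o
  have hNO : IsNoetherianRing (OL O (K := K) s) := inferInstance
  have hM : ∀ i, (ctr s (𝔔 i)).IsMaximal := fun i => ctr_maximal hH.inj (hL.mx i) (hL.ne i)
  have hTbo : ∀ (g : G) (o : O), Tb g ⟨algebraMap O K o, hOK o⟩ =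
      (⟨algebraMap O K (T g o), mem_OLb s _⟩ : OL O (K := K) s) := by
    intro g o
    apply Subtype.ext
    change ((Tb g ⟨algebraMap O K o, hOK o⟩ : OL O (K := K) s) : K) = algebraMap O K (T g o)
    rw [← hH.com]
    exact (hL.com g ⟨algebraMap O K o, hOK o⟩).symm
  have hTbs : ∀ (g : G) (o : O), Tb g ⟨algebraMap O K o, hOK o⟩ - ⟨algebraMap O K o, hOK o⟩ =
      (⟨algebraMap O K (T g o - o), mem_OLb s _⟩ : OL O (K := K) s) := by
    intro g o
    rw [hTbo]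
    apply Subtype.ext
    change algebraMap O K (T g o) - algebraMap O K o = algebraMap O K (T g o - o)
    rw [map_sub]
  -- the wild inertia group
  have hWg : ∀ i g, (∀ x, Tb g x - x ∈ 𝔔 i) → (∀ x ∈ 𝔔 i, Tb g x - x ∈ 𝔔 i ^ 2) →
      Wild T g (ctr s (𝔔 i)) := by
    intro i g hg hg2
    refine ⟨fun o => ?_, fun o ho => ?_⟩
    · rw [mem_ctr, ← hTbs]
      exact hg _
    · refine ctr_sq hH.inj hsK (hL.mx i) (hL.ne i) ?_
      rw [← hTbs]
      exact hg2 _ (mem_ctr.1 ho)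
  have hWe : ∀ i, ∃ g, g ≠ 1 ∧ Wild T g (ctr s (𝔔 i)) := by
    intro i
    obtain ⟨g, hg1, hg, hg2⟩ := hin i
    exact ⟨g, hg1, hWg i g hg hg2⟩
  have hτW : ∀ i, τ i ≠ 1 ∧ Wild T (τ i) (ctr s (𝔔 i)) := by
    intro i
    obtain ⟨g, hg1, hg, hg2⟩ := hin i
    obtain ⟨hw, hτp, hz⟩ := hL.ty i
    have h1 : g ∈ Subgroup.zpowers (τ i) := by
      refine hz g hg fun w hw => ?_
      have h2 : (w - 1) * π ∈ 𝔔 i ^ (1 + 1) := by
        have e1 : (w - 1) * π = Tb g π - π := by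
          rw [hw]
          ring
        rw [e1]
        exact hg2 _ (hL.pq i).1
      have h3 := cancel_unif (hL.mx i) (hL.ne i) h2 (hL.pq i).1 (hL.pq i).2
      rwa [pow_one] at h3
    refine ⟨fun h => hg1 ?_, ?_⟩
    · rw [h, Subgroup.zpowers_one_eq_bot, Subgroup.mem_bot] at h1
      exact h1
    · have h2 : Subgroup.zpowers g ≤ wildSub T (ctr s (𝔔 i)) := by
        rw [Subgroup.zpowers_le]
        exact hWg i g hg hg2
      exact h2 (zpowers_prime hw.pp hτp h1 hg1)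
  refine ⟨fun i => e (ctr s (𝔔 i)), fun i _ => W (ctr s (𝔔 i)), fun i => hD.e0 _,
    fun d Φ hd hΦ => ?_⟩
  have hrgC : IsRegularRing (CG (OL O (K := K) s) (fun _ : Unit => z) d Φ) :=
    hREGL k O K Unit s hsK m (fun _ => z) hH.z0 hH.rg d Φ hd hΦ.mem hΦ.ne
  -- stability of the chart
  have hst : ∀ g, ∀ c ∈ CG (OL O (K := K) s) (fun _ : Unit => z) d Φ,
      ρ g c ∈ CG (OL O (K := K) s) (fun _ : Unit => z) d Φ := by
    intro g
    let V : Subalgebra (OL O (K := K) s) K :=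
      { carrier := {x | ρ g x ∈ CG (OL O (K := K) s) (fun _ : Unit => z) d Φ}
        mul_mem' := by
          intro a b ha hb
          change ρ g (a * b) ∈ CG (OL O (K := K) s) (fun _ : Unit => z) d Φ
          rw [map_mul]
          exact Subalgebra.mul_mem _ ha hb
        add_mem' := by
          intro a b ha hb
          change ρ g (a + b) ∈ CG (OL O (K := K) s) (fun _ : Unit => z) d Φ
          rw [map_add]
          exact Subalgebra.add_mem _ ha hb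
        algebraMap_mem' := by
          intro r
          change ρ g (algebraMap (OL O (K := K) s) K r) ∈
            CG (OL O (K := K) s) (fun _ : Unit => z) d Φ
          rw [hL.com]
          exact Subalgebra.algebraMap_mem _ _ }
    have hle : CG (OL O (K := K) s) (fun _ : Unit => z) d Φ ≤ V := by
      unfold CG
      refine iSup_le fun ω => ?_
      unfold AF
      rw [Algebra.adjoin_le_iff]
      rintro y ⟨x, ⟨a, ha, rfl⟩, rfl⟩
      change ρ g ((∏ j, z j ^ a j) / Φ ω) ∈ CG (OL O (K := K) s) (fun _ : Unit => z) d Φ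
      rw [map_div₀, map_prod, hΦ.inv]
      have h1 : ∏ j, ρ g (z j ^ a j) ∈ FS (OL O (K := K) s) z d := by
        have h2 : ∀ j, ρ g (z j ^ a j) = (ρ g (z j)) ^ a j := fun j => map_pow _ _ _
        simp only [h2]
        have h3 := fs_prod (O := OL O (K := K) s) (z := z) (x := fun j => ρ g (z j))
          (fun j => fs_loc s (fs_one (hH.lin g ω j))) a Finset.univ
        rw [ha] at h3
        exact h3
      have h2 := af_fs (F := Φ ω) h1
      exact (le_iSup (fun ω => AF (OL O (K := K) s) z d (Φ ω)) ω) h2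
    exact fun c hc => hle hc
  have hftC : Algebra.FiniteType (OL O (K := K) s)
      (CG (OL O (K := K) s) (fun _ : Unit => z) d Φ) := by
    rw [← Subalgebra.fg_iff_finiteType]
    unfold CG AF
    rw [← Algebra.adjoin_iUnion, Subalgebra.fg_def]
    refine ⟨_, Set.finite_iUnion fun ω => ?_, rfl⟩
    have h1 : {y : K | ∃ x ∈ MN z d, y = x / Φ ω} = (fun x => x / Φ ω) '' MN z d := by
      ext y
      constructor
      · rintro ⟨x, hx, rfl⟩
        exact ⟨x, hx, rfl⟩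
      · rintro ⟨x, hx, rfl⟩
        exact ⟨x, hx, rfl⟩
    rw [h1]
    exact (Pool.Agent.Y434.G.MN_finite _ d).image _
  have hb := fun i => hRWB k (OL O (K := K) s) K Unit (𝔔 i) (e (ctr s (𝔔 i))) (hD.e0 _) m
    (fun _ => W (ctr s (𝔔 i))) (fun _ => z) d Φ
  have hzz : ∀ j, z j ≠ 0 := fun j => hH.z0 () j
  have hP : ∀ i, ∀ a ∈ ctr s (𝔔 i), (⟨algebraMap O K a, mem_OLb s a⟩ : OL O (K := K) s) ∈ 𝔔 i :=
    fun i a ha => mem_ctr.1 ha
  have hft : ∀ i, Algebra.FiniteType k (RW k (𝔔 i) (e (ctr s (𝔔 i)))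
      (fun _ : Unit => W (ctr s (𝔔 i))) (fun _ => z) d Φ) :=
    fun i => (hb i).2.2.2.2.2.2 hL.ft hNO
  have hrg : ∀ i, IsRegularRing (RW k (𝔔 i) (e (ctr s (𝔔 i)))
      (fun _ : Unit => W (ctr s (𝔔 i))) (fun _ => z) d Φ) := fun i =>
    RU_reg rfl (hft i) hsK hzz hd (hΦ.ne ()) (hΦ.mem ()) (hP i) (fun b hb => ctr_rep b hb)
      (hD.rg _ (hM i) (hWe i))
  have hW : WCt k (OL O (K := K) s) K G ρ Tb 𝔔 τ π (CG (OL O (K := K) s) (fun _ : Unit => z) d Φ)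
      (fun i => RW k (𝔔 i) (e (ctr s (𝔔 i))) (fun _ : Unit => W (ctr s (𝔔 i)))
        (fun _ => z) d Φ) := by
    refine ⟨hst, hftC, hrgC, fun i => (hb i).1, fun i => (hb i).2.1, fun i => (hb i).2.2.1,
      fun i => (hb i).2.2.2.1, hft, hrg, fun i => (hb i).2.2.2.2.1, ?_, ?_⟩
    · intro g i j hij
      have hij' : ∀ o, o ∈ ctr s (𝔔 i) ↔ T g o ∈ ctr s (𝔔 j) := by
        intro o
        rw [mem_ctr, mem_ctr, hij, hTbo]
      obtain ⟨he, hlin⟩ := hD.eq _ (hM i) (hWe i) g _ hij'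
      refine RU_stab (e := e (ctr s (𝔔 i))) rfl (by rw [he]) hzz hd (hΦ.ne ()) (hΦ.mem ()) (hP j)
        (ρ g) (hΦ.inv g ()) (fun o => Tb g o) (fun o => hL.com g o) (fun b hb => (hij b).1 hb) ?_
      intro i' j'
      have h1 := hlin i' j'
      rwa [he] at h1
    · intro i
      obtain ⟨hne, hwild⟩ := hτW i
      obtain ⟨l', D, hD0, hDl, hdv, hlinD, hfix⟩ := hD.dl _ (hM i) (τ i) hne hwild
      have hself : ∀ o, o ∈ ctr s (𝔔 i) ↔ T (τ i) o ∈ ctr s (𝔔 i) := by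
        intro o
        constructor
        · intro h
          have h1 := Ideal.add_mem _ (hwild.1 o) h
          rwa [sub_add_cancel] at h1
        · intro h
          have h1 := Ideal.sub_mem _ h (hwild.1 o)
          rwa [sub_sub_cancel] at h1
      obtain ⟨-, hlin⟩ := hD.eq _ (hM i) (hWe i) (τ i) _ hself
      have hTbi : ∀ b ∈ 𝔔 i, Tb (τ i) b ∈ 𝔔 i := by
        intro b hb
        have h1 := Ideal.add_mem _ (Ideal.pow_le_self (Nat.succ_ne_zero _)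
          ((hL.ty i).1.dv b)) hb
        rwa [sub_add_cancel] at h1
      have hst' := RU_stab (R := RW k (𝔔 i) (e (ctr s (𝔔 i)))
        (fun _ : Unit => W (ctr s (𝔔 i))) (fun _ => z) d Φ) rfl rfl hzz hd (hΦ.ne ())
        (hΦ.mem ()) (hP i) (ρ (τ i)) (hΦ.inv (τ i) ()) (fun o => Tb (τ i) o)
        (fun o => hL.com (τ i) o) hTbi hlin
      have hdv' : ∀ o, Tb (τ i) o - o ∈ 𝔔 i ^ (l' + 1) := by
        rintro ⟨x, n, y, hxy⟩
        have hsu : (⟨(algebraMap k K s)⁻¹, Pool.Agent.Y177.G.inv_mem_OL s hsK⟩ :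
            OL O (K := K) s) * algebraMap k (OL O (K := K) s) s = 1 := by
          apply Subtype.ext
          exact inv_mul_cancel₀ hsK
        have hx : algebraMap k (OL O (K := K) s) s ^ n * (⟨x, n, y, hxy⟩ : OL O (K := K) s) =
            ⟨algebraMap O K y, mem_OLb s y⟩ := by
          apply Subtype.ext
          exact hxy
        have h1 : algebraMap k (OL O (K := K) s) s ^ n *
            (Tb (τ i) (⟨x, n, y, hxy⟩ : OL O (K := K) s) - ⟨x, n, y, hxy⟩) =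
            ⟨algebraMap O K (T (τ i) y - y), mem_OLb s _⟩ := by
          rw [← hTbs, ← hx, map_mul, map_pow, AlgEquiv.commutes, mul_sub]
        have h2 : Tb (τ i) (⟨x, n, y, hxy⟩ : OL O (K := K) s) - ⟨x, n, y, hxy⟩ =
            (⟨(algebraMap k K s)⁻¹, Pool.Agent.Y177.G.inv_mem_OL s hsK⟩ :
            OL O (K := K) s) ^ n * (algebraMap k (OL O (K := K) s) s ^ n *
            (Tb (τ i) (⟨x, n, y, hxy⟩ : OL O (K := K) s) - ⟨x, n, y, hxy⟩)) := by
          rw [← mul_assoc, ← mul_pow, hsu, one_pow, one_mul]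
        rw [h2, h1]
        exact Ideal.mul_mem_left _ _ (ctr_pow _ (hdv y))
      have hδ := RU_delta (R := RW k (𝔔 i) (e (ctr s (𝔔 i)))
        (fun _ : Unit => W (ctr s (𝔔 i))) (fun _ => z) d Φ) rfl hzz hd (hΦ.ne ())
        (hΦ.mem ()) (hP i) (ρ (τ i)) (hΦ.inv (τ i) ()) (fun o => Tb (τ i) o)
        (fun o => hL.com (τ i) o) hst' hDl hdv' hlin hlinD
      refine ⟨D, hD0, hδ, fun w hw => ?_, ?_⟩
      · refine low_mem R_s (R_epow l' ?_) (by exact_mod_cast hDl)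
        refine cancel_unif (hL.mx i) (hL.ne i) ?_ (hL.pq i).1 (hL.pq i).2
        have e1 : (w - 1) * π = Tb (τ i) π - π := by
          rw [hw]
          ring
        rw [e1]
        exact hdv' π
      · intro Q hQ h1 h2
        exact RU_nd rfl hzz hd (hΦ.ne ()) (hΦ.mem ()) (hP i) (fun b hb => ctr_rep b hb) hsK
          (ρ (τ i)) (hΦ.inv (τ i) ()) (fun o => T (τ i) o) (fun o => hH.com (τ i) o) (hD.e0 _)
          hlin hfix Q hQ h1 h2 hδ
  exact hCH k (OL O (K := K) s) K K₂ G ε hE.eK ρ ρ₂ hE.act Tb N 𝔔 p l τ π hL _ _ hW Y₂ ι₂ hE.fix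

end Pool.Agent.R383.TM
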