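import Pool.Agent.R383.TM.Loc

/-!
# Weighted blowups: the fixed points
-/

set_option autoImplicit false
set_option linter.unusedSectionVars false

namespace Pool.Agent.R383.TM

open Pool.Agent.Y223.G Pool.Agent.Y858.H
open Pool.Agent.Y38.H.Rwb (R_s R_e R_o R_m R_low R_gr R_epow R_c R_coeff R_ft)
open Pool.Agent.Y86.G5 (im mem_im im_sub im_mul im_prime im_one im_pow up mem_up up_prime)

variable {k O K : Type} [CommRing k] [CommRing O] [IsDomain O] [Field K] [Algebra k O]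
  [Algebra O K] [Algebra k K] [IsScalarTower k O K] {s : k} {𝔔 𝔔' : Ideal (OL O (K := K) s)}
  {𝔓 𝔓' : Ideal O} {e m : ℕ} {W W' : Fin (m + 1) → ℕ} {z : Fin (m + 1) → K} {d : ℕ}
  {Φ : Unit → K} {R R' : Subalgebra k (LP K)}

/-- **The leading form has no zeros outside the vertex.** -/
theorem RU_nd (hR : R = RW k 𝔔 e (fun _ : Unit => W) (fun _ => z) d Φ) (hz : ∀ j, z j ≠ 0)
    (hd : 1 ≤ d) (hΦ0 : Φ () ≠ 0) (hΦ : Φ () ∈ FS O z d)
    (hP : ∀ a ∈ 𝔓, (⟨algebraMap O K a, mem_OLb s a⟩ : OL O (K := K) s) ∈ 𝔔)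
    (hrep : ∀ b ∈ 𝔔, ∃ n : ℕ, ∃ a ∈ 𝔓, algebraMap k K s ^ n * (b : K) = algebraMap O K a)
    (hs : algebraMap k K s ≠ 0) (σ : K ≃ₐ[k] K) (hσΦ : σ (Φ ()) = Φ ()) (t : O → O)
    (hσo : ∀ o, σ (algebraMap O K o) = algebraMap O K (t o)) {D : ℕ} (he : 0 < e)
    (hlin : ∀ i j, hm (W i) (σ (z i) / z j) ∈ WR k 𝔓 e W z j)
    (hfix : ∀ j, ∀ x : WR k 𝔓 e W z j, (∃ n : ℕ, 0 < n ∧ ∃ a : K, (x : LP K) = hm n a) →
      x ∈ (FIX k 𝔓 e D W z σ t j).radical)
    (Q : Ideal R) (hQ : Q.IsPrime)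
    (h1 : ∀ b ∈ 𝔔, ∃ h : hm 0 (algebraMap (OL O (K := K) s) K b) ∈ R, (⟨_, h⟩ : R) ∈ Q)
    (h2 : ∃ (n : ℕ) (η : K) (he : hm n η ∈ R), 0 < n ∧ (⟨hm n η, he⟩ : R) ∉ Q)
    (hδ : ∀ f ∈ R, hm D 1 * (tl σ f - f) ∈ R) :
    ∃ b ∈ R, ∃ h : hm D 1 * (tl σ b - b) ∈ R, (⟨_, h⟩ : R) ∉ Q := by
  classical
  by_contra hcon
  push Not at hcon
  have hδQ : ∀ f ∈ R, hm D 1 * (tl σ f - f) ∈ im R Q :=
    fun f hf => ⟨hδ f hf, hcon f hf (hδ f hf)⟩
  have hO : ∀ o : O, ∃ o' : OL O (K := K) s,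
      algebraMap (OL O (K := K) s) K o' = algebraMap O K o := fun o => ⟨⟨_, mem_OLb s o⟩, rfl⟩
  obtain ⟨j, hj⟩ := RU_notMem hR hd hO hΦ hΦ0 Q hQ
  have ht := t_mem hR hd j
  have hle := WR_le_loc hR hz hd hP j ht
  have hss : hm (-1) 1 ∈ R := by rw [hR]; exact R_s
  obtain ⟨J, hJ⟩ : ∃ J, J = up R (WR k 𝔓 e W z j) Q (hm 0 (z j ^ d / Φ ())) ht
    (fun f hf => hle hf) := ⟨_, rfl⟩
  have hJp : J.IsPrime := by
    rw [hJ]
    exact up_prime hQ ht _ hj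
  have memJ : ∀ x : WR k 𝔓 e W z j, x ∈ J ↔
      ∃ n : ℕ, hm 0 (z j ^ d / Φ ()) ^ n * (x : LP K) ∈ im R Q := by
    intro x
    rw [hJ]
    exact Iff.rfl
  -- the localization of the ideal
  have j_mul : ∀ f g : LP K, f ∈ loc R (hm 0 (z j ^ d / Φ ())) ht →
      (∃ n : ℕ, hm 0 (z j ^ d / Φ ()) ^ n * g ∈ im R Q) →
      ∃ n : ℕ, hm 0 (z j ^ d / Φ ()) ^ n * (f * g) ∈ im R Q := by
    rintro f g ⟨a, ha⟩ ⟨b, hb⟩
    refine ⟨a + b, ?_⟩
    have h3 : hm 0 (z j ^ d / Φ ()) ^ (a + b) * (f * g) =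
        (hm 0 (z j ^ d / Φ ()) ^ a * f) * (hm 0 (z j ^ d / Φ ()) ^ b * g) := by ring
    rw [h3]
    exact im_mul ha hb
  have j_sub : ∀ f g : LP K, (∃ n : ℕ, hm 0 (z j ^ d / Φ ()) ^ n * f ∈ im R Q) →
      (∃ n : ℕ, hm 0 (z j ^ d / Φ ()) ^ n * g ∈ im R Q) →
      ∃ n : ℕ, hm 0 (z j ^ d / Φ ()) ^ n * (f - g) ∈ im R Q := by
    rintro f g ⟨a, ha⟩ ⟨b, hb⟩
    refine ⟨a + b, ?_⟩
    have h3 : hm 0 (z j ^ d / Φ ()) ^ (a + b) * (f - g) =
        hm 0 (z j ^ d / Φ ()) ^ b * (hm 0 (z j ^ d / Φ ()) ^ a * f) +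
        (-hm 0 (z j ^ d / Φ ()) ^ a) * (hm 0 (z j ^ d / Φ ()) ^ b * g) := by ring
    rw [h3]
    exact (im R Q).add_mem (im_mul (R.pow_mem ht b) ha) (im_mul (R.neg_mem (R.pow_mem ht a)) hb)
  have j_t : ∀ f : LP K, (∃ n : ℕ, hm 0 (z j ^ d / Φ ()) ^ n * (hm 0 (z j ^ d / Φ ()) * f) ∈
      im R Q) → ∃ n : ℕ, hm 0 (z j ^ d / Φ ()) ^ n * f ∈ im R Q := by
    rintro f ⟨a, ha⟩
    refine ⟨a + 1, ?_⟩
    rwa [pow_succ, mul_assoc]
  have j_im : ∀ f : LP K, f ∈ im R Q → ∃ n : ℕ, hm 0 (z j ^ d / Φ ()) ^ n * f ∈ im R Q :=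
    fun f hf => ⟨0, by rwa [pow_zero, one_mul]⟩
  -- the ideal of the fixed points
  have hFJ : FIX k 𝔓 e D W z σ t j ≤ J := by
    unfold FIX
    rw [Ideal.span_le]
    rintro x (⟨a, ha, hx⟩ | ⟨a, ha, hx⟩ | ⟨i, l, hx⟩)
    · rw [SetLike.mem_coe, memJ, hx]
      exact j_im _ (h1 _ (hP a ha))
    · rw [SetLike.mem_coe, memJ, hx]
      refine j_im _ ?_
      have h3 := hδQ (hm e (algebraMap O K a)) (by rw [hR]; exact R_e (hP a ha))
      rwa [tl_hm, hσo, ← hm_sub, hm_mul, one_mul, ← map_sub, add_comm (D : ℤ)] at h3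
    · rw [SetLike.mem_coe, memJ, hx]
      obtain ⟨d', hd'⟩ : ∃ d', d = d' + 1 := ⟨d - 1, by omega⟩
      have hzj := hz j
      have hu : hm 0 (σ (z j) / z j) ∈ loc R (hm 0 (z j ^ d / Φ ())) ht :=
        low_mem (hle WR_s) (hle (hlin j j)) (by positivity)
      have hX : ∀ i, hm (W i) (z i * z j ^ (d - 1) / Φ ()) ∈ R := by
        intro i
        rw [hR]
        exact RU_two hd i j
      -- first relation
      have hA : ∃ n : ℕ, hm 0 (z j ^ d / Φ ()) ^ n * (hm 0 ((σ (z j) / z j) ^ (d - 1)) *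
          hm ((W i : ℤ) + W l + D) ((z i * σ (z l) - z l * σ (z i)) / z j ^ 2)) ∈ im R Q := by
        refine j_t _ (j_t _ ?_)
        have h3 := j_sub _ _ (j_mul _ _ (le_loc _ _ _ (hX i)) (j_im _ (hδQ _ (hX l))))
          (j_mul _ _ (le_loc _ _ _ (hX l)) (j_im _ (hδQ _ (hX i))))
        have h4 : hm (W i : ℤ) (z i * z j ^ (d - 1) / Φ ()) *
              (hm D 1 * (tl σ (hm (W l : ℤ) (z l * z j ^ (d - 1) / Φ ())) -
                hm (W l : ℤ) (z l * z j ^ (d - 1) / Φ ()))) -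
            hm (W l : ℤ) (z l * z j ^ (d - 1) / Φ ()) *
              (hm D 1 * (tl σ (hm (W i : ℤ) (z i * z j ^ (d - 1) / Φ ())) -
                hm (W i : ℤ) (z i * z j ^ (d - 1) / Φ ()))) =
            hm 0 (z j ^ d / Φ ()) * (hm 0 (z j ^ d / Φ ()) * (hm 0 ((σ (z j) / z j) ^ (d - 1)) *
          hm ((W i : ℤ) + W l + D) ((z i * σ (z l) - z l * σ (z i)) / z j ^ 2))) := by
          rw [tl_hm, tl_hm, ← hm_sub, ← hm_sub, hm_mul, hm_mul, hm_mul, hm_mul, hm_mul, hm_mul,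
            hm_mul, one_mul, one_mul]
          have e1 : (W l : ℤ) + (D + W i) = W i + (D + W l) := by ring
          have e2 : (0 : ℤ) + (0 + (0 + (W i + W l + D))) = W i + (D + W l) := by ring
          rw [e1, e2, ← hm_sub]
          congr 1
          simp only [map_div₀, map_mul, map_pow, hσΦ, hd', Nat.add_sub_cancel]
          generalize σ (z j) = C
          generalize σ (z i) = A
          generalize σ (z l) = B
          rw [div_pow]
          have hzd : z j ^ d' ≠ 0 := pow_ne_zero _ hzj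
          field_simp
          ring
        rwa [h4] at h3
      have hB : ∃ n : ℕ, hm 0 (z j ^ d / Φ ()) ^ n * (hm 0 (σ (z j) / z j) *
          (hm 0 ((σ (z j) / z j) ^ (d - 1)) *
          hm ((W i : ℤ) + W l + D) ((z i * σ (z l) - z l * σ (z i)) / z j ^ 2))) ∈ im R Q :=
        j_mul _ _ hu hA
      -- second relation
      have hm1 : hm ((W i : ℤ) + W l) ((z i * σ (z l) - z l * σ (z i)) / z j ^ 2) ∈
          loc R (hm 0 (z j ^ d / Φ ())) ht := by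
        have h3 := Subalgebra.sub_mem _
          (Subalgebra.mul_mem _ (hle (WR_z i)) (hle (hlin l j)))
          (Subalgebra.mul_mem _ (hle (WR_z l)) (hle (hlin i j)))
        rw [hm_mul, hm_mul, add_comm (W l : ℤ), ← hm_sub] at h3
        have e1 : z i / z j * (σ (z l) / z j) - z l / z j * (σ (z i) / z j) =
            (z i * σ (z l) - z l * σ (z i)) / z j ^ 2 := by
          field_simp
        rwa [e1] at h3
      have hC : ∃ n : ℕ, hm 0 (z j ^ d / Φ ()) ^ n *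
          (hm ((W i : ℤ) + W l) ((z i * σ (z l) - z l * σ (z i)) / z j ^ 2) *
            hm D ((σ (z j) / z j) ^ d - 1)) ∈ im R Q := by
        refine j_mul _ _ hm1 (j_t _ (j_im _ ?_))
        have h3 := hδQ _ ht
        have h4 : (hm D 1 * (tl σ (hm 0 (z j ^ d / Φ ())) - hm 0 (z j ^ d / Φ ())) : LP K) =
            hm 0 (z j ^ d / Φ ()) * hm D ((σ (z j) / z j) ^ d - 1) := by
          rw [tl_hm, ← hm_sub, hm_mul, hm_mul, one_mul, zero_add, add_zero]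
          congr 1
          simp only [map_div₀, map_pow, hσΦ]
          generalize σ (z j) = C
          rw [div_pow]
          have hzd : z j ^ d ≠ 0 := pow_ne_zero _ hzj
          field_simp
        rwa [h4] at h3
      have hDD := j_sub _ _ hB hC
      have h5 : hm 0 (σ (z j) / z j) * (hm 0 ((σ (z j) / z j) ^ (d - 1)) *
          hm ((W i : ℤ) + W l + D) ((z i * σ (z l) - z l * σ (z i)) / z j ^ 2)) -
          hm ((W i : ℤ) + W l) ((z i * σ (z l) - z l * σ (z i)) / z j ^ 2) *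
            hm D ((σ (z j) / z j) ^ d - 1) =
          hm ((W i : ℤ) + W l + D) ((z i * σ (z l) - z l * σ (z i)) / z j ^ 2) := by
        rw [hm_mul, hm_mul, hm_mul, zero_add, zero_add, ← hm_sub]
        congr 1
        simp only [hd', Nat.add_sub_cancel]
        ring
      rwa [h5] at hDD
  have hrad : ∀ x : WR k 𝔓 e W z j, (∃ n : ℕ, 0 < n ∧ ∃ a : K, (x : LP K) = hm n a) → x ∈ J :=
    fun x hx => (hJp.radical_le_iff).2 hFJ (hfix j x hx)
  have tprime : ∀ f : LP K, f ∈ R → (∃ n : ℕ, hm 0 (z j ^ d / Φ ()) ^ n * f ∈ im R Q) →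
      f ∈ im R Q := by
    rintro f hf ⟨n, hn⟩
    rcases im_prime hQ (R.pow_mem ht n) hf hn with h3 | h3
    · exact absurd h3 (im_pow hQ ht hj n)
    · exact h3
  -- the generators
  obtain ⟨n, η, hη, hn, hηQ⟩ := h2
  apply hηQ
  have h3 := Pool.Agent.Y872.H.pos_gen (k := k) _ R hR Q (fun x hx => ?_) (hm n η) hη n
    (by exact_mod_cast hn)
  · rw [coeff_hm_same] at h3
    exact h3.2
  · rcases hx with ((hx | ⟨b, hb, rfl⟩) | ⟨o, rfl⟩) | ⟨ω, a, ha, rfl⟩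
    · exact ⟨-1, 1, hx, fun h => absurd h (by norm_num)⟩
    · refine ⟨_, _, rfl, fun _ => ?_⟩
      obtain ⟨N, a, ha, hab⟩ := hrep b hb
      have h4 := (memJ ⟨_, WR_e ha⟩).1 (hrad ⟨hm e (algebraMap O K a), WR_e ha⟩
        ⟨e, he, _, rfl⟩)
      have h5 : hm (e : ℤ) (algebraMap O K a) ∈ im R Q := by
        refine tprime _ ?_ h4
        rw [hR]
        exact R_e (hP a ha)
      have hs' : hm 0 (algebraMap k K s)⁻¹ ∈ R := by
        rw [hR]
        exact R_o (⟨_, Pool.Agent.Y177.G.inv_mem_OL s hs⟩ : OL O (K := K) s)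
      have h6 := im_mul (R.pow_mem hs' N) h5
      have h7 : (hm 0 (algebraMap k K s)⁻¹ ^ N * hm (e : ℤ) (algebraMap O K a) : LP K) =
          hm (e : ℤ) (algebraMap (OL O (K := K) s) K b) := by
        rw [hm_pow, hm_mul, ← hab, mul_zero, zero_add, inv_pow,
          inv_mul_cancel_left₀ (pow_ne_zero _ hs)]
        rfl
      rwa [h7] at h6
    · exact ⟨0, _, rfl, fun h => absurd h (lt_irrefl _)⟩
    · refine ⟨_, _, rfl, fun hpos => ?_⟩
      have hpos' : 0 < ∑ i, W i * a i := by exact_mod_cast hpos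
      obtain ⟨i, -, hi⟩ : ∃ i ∈ Finset.univ, W i * a i ≠ 0 := by
        by_contra hc
        push Not at hc
        rw [Finset.sum_eq_zero hc] at hpos'
        exact lt_irrefl _ hpos'
      have hWi : 0 < W i := Nat.pos_of_ne_zero (left_ne_zero_of_mul hi)
      have hai : a i ≠ 0 := right_ne_zero_of_mul hi
      have h4 : (⟨hm (W i) (z i / z j), WR_z i⟩ : WR k 𝔓 e W z j) ∈ J :=
        hrad _ ⟨W i, hWi, _, rfl⟩
      have h5 : (∏ i, (⟨hm (W i) (z i / z j), WR_z i⟩ : WR k 𝔓 e W z j) ^ a i) ∈ J := by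
        rw [← Finset.mul_prod_erase _ _ (Finset.mem_univ i)]
        exact J.mul_mem_right _ (Ideal.pow_mem_of_mem J h4 _ (Nat.pos_of_ne_zero hai))
      rw [memJ] at h5
      have h6 : ((∏ i, (⟨hm (W i) (z i / z j), WR_z i⟩ : WR k 𝔓 e W z j) ^ a i :
          WR k 𝔓 e W z j) : LP K) = ∏ i, (hm (W i : ℤ) (z i / z j)) ^ a i := by
        rw [SubmonoidClass.coe_finsetProd]
        simp only [SubmonoidClass.coe_pow]
      rw [h6] at h5
      have h7 := id_mon (Φ := Φ) hz j a ha W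
      refine tprime _ (by rw [hR]; exact R_m ω a ha) ?_
      have h8 := j_mul _ _ (le_loc _ _ _ ht) h5
      rw [← h7] at h8
      exact h8

end Pool.Agent.R383.TM
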