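import Pool.Agent.R383.TM.Bridge
import Pool.Agent.Y223.G.WModP

/-!
# Quotients by groups with nondegenerate wild inertia: number fields
-/

set_option autoImplicit false
set_option linter.unusedVariables false
set_option linter.unusedSectionVars false

open scoped Pointwise

open AlgebraicGeometry CategoryTheory CategoryTheory.Limits MvPolynomial NumberField

namespace Pool.Agent.R383.TM

open Pool.Agent.Y223.G Pool.Agent.TH214.RM Pool.Agent.H918R2.Quad Pool.Agent.W418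

/-- `g ≠ 1` is in the wild inertia group of `𝔓`. -/
def IsW (E : Type) {M : Type} [Field E] [Field M] [Algebra E M] (𝔓 : Ideal (𝓞 M))
    (g : M ≃ₐ[E] M) : Prop :=
  g ≠ 1 ∧ (∀ o : 𝓞 M, ∃ a ∈ 𝔓, (a : M) = g o - o) ∧ ∀ o ∈ 𝔓, ∃ a ∈ 𝔓 ^ 2, (a : M) = g o - o

/-- `h` maps `𝔓` to `𝔓'`. -/
def IsCj {E M : Type} [Field E] [Field M] [Algebra E M] (h : M ≃ₐ[E] M)
    (𝔓 𝔓' : Ideal (𝓞 M)) : Prop :=
  ∀ o o' : 𝓞 M, (o' : M) = h o → (o ∈ 𝔓 ↔ o' ∈ 𝔓')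

section

variable {E M F K A : Type} [Field E] [NumberField E] [Field M] [NumberField M] [Algebra E M]
  [Field F] [Algebra E F] [Field K] [Algebra M K] [Algebra E K] [IsScalarTower E M K]
  [Algebra F K] [IsScalarTower E F K] [CommRing A] [Algebra E A] {m : ℕ}

/-- The hypotheses on the weights. -/
structure DATA (ρ : (M ≃ₐ[E] M) →* (K ≃ₐ[E] K)) (z : Fin (m + 1) → K)
    (e : Ideal (𝓞 M) → ℕ) (w : Ideal (𝓞 M) → Fin (m + 1) → ℕ) : Prop where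
  pos : ∀ 𝔓 : Ideal (𝓞 M), 0 < e 𝔓
  reg : ∀ (𝔓 : Ideal (𝓞 M)) (g : M ≃ₐ[E] M), 𝔓.IsMaximal → IsW E 𝔓 g → ∀ j,
    IsRegularRing (BR 𝔓 (e 𝔓) (w 𝔓) z j)
  eqv : ∀ (𝔓 : Ideal (𝓞 M)) (g : M ≃ₐ[E] M), 𝔓.IsMaximal → IsW E 𝔓 g →
    ∀ (h : M ≃ₐ[E] M) (𝔓' : Ideal (𝓞 M)), IsCj h 𝔓 𝔓' → e 𝔓' = e 𝔓 ∧
      ∀ i j, mo (ρ h (z i) / z j) (w 𝔓 i) ∈ BR 𝔓' (e 𝔓') (w 𝔓') z j
  nd : ∀ (𝔓 : Ideal (𝓞 M)) (g : M ≃ₐ[E] M), 𝔓.IsMaximal → IsW E 𝔓 g →
    ∃ l D : ℕ, 0 < D ∧ D ≤ e 𝔓 * l ∧ (∀ o : 𝓞 M, ∃ a ∈ 𝔓 ^ (l + 1), (a : M) = g o - o) ∧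
      (∀ i j, mo ((ρ g (z i) - z i) / z j) ((w 𝔓 i : ℤ) + D) ∈ BR 𝔓 (e 𝔓) (w 𝔓) z j) ∧
      ∀ j, NF (BR 𝔓 (e 𝔓) (w 𝔓) z j) 𝔓 (e 𝔓) D (w 𝔓) z (ρ g) j

theorem wd_of (ρ : (M ≃ₐ[E] M) →* (K ≃ₐ[E] K))
    (hρ : ∀ g x, ρ g (algebraMap M K x) = algebraMap M K (g x)) (z : Fin (m + 1) → K)
    (e : Ideal (𝓞 M) → ℕ) (w : Ideal (𝓞 M) → Fin (m + 1) → ℕ) (hD : DATA ρ z e w) :
    WD (𝓞 E) (𝓞 M) K (M ≃ₐ[E] M) (RS E K ρ) (TT E M) z e w := by
  have hW : ∀ (𝔓 : Ideal (𝓞 M)) g, g ≠ 1 → Wild (TT E M) g 𝔓 → IsW E 𝔓 g := by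
    intro 𝔓 g hg hw
    exact ⟨hg, fun o => ⟨_, hw.1 o, rfl⟩, fun o ho => ⟨_, hw.2 o ho, rfl⟩⟩
  have hcom : ∀ (g : M ≃ₐ[E] M) (o : 𝓞 M), ρ g (algebraMap (𝓞 M) K o) =
      algebraMap (𝓞 M) K (TT E M g o) := fun g o => hρ g (o : M)
  refine ⟨hD.pos, ?_, ?_, ?_⟩
  · rintro 𝔓 h𝔓 ⟨g, hg, hw⟩ j
    exact WR_reg (hD.reg 𝔓 g h𝔓 (hW 𝔓 g hg hw) j)
  · rintro 𝔓 h𝔓 ⟨g, hg, hw⟩ h 𝔓' hh
    obtain ⟨h1, h2⟩ := hD.eqv 𝔓 g h𝔓 (hW 𝔓 g hg hw) h 𝔓' (by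
      intro o o' ho
      have h3 : o' = TT E M h o := by
        apply RingOfIntegers.coe_injective
        exact ho
      rw [h3]
      exact hh o)
    exact ⟨h1, fun i j => WR_mem (h2 i j)⟩
  · intro 𝔓 h𝔓 g hg hw
    obtain ⟨l, D, hD0, hDl, hdv, hlin, hnf⟩ := hD.nd 𝔓 g h𝔓 (hW 𝔓 g hg hw)
    refine ⟨l, D, hD0, hDl, ?_, fun i j => WR_mem (hlin i j), fun j =>
      FIX_of (RS E K ρ g) (TT E M g) (fun o => hcom g o) (hnf j)⟩
    intro o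
    obtain ⟨a, ha, hao⟩ := hdv o
    have h3 : a = TT E M g o - o := by
      apply RingOfIntegers.coe_injective
      exact hao
    rw [← h3]
    exact ha

/-- The data of the theorem. -/
def WWD (E M F K : Type) [Field E] [NumberField E] [Field M] [NumberField M] [Algebra E M]
    [Field F] [Algebra E F] [Field K] [Algebra M K] [Algebra E K] [IsScalarTower E M K]
    [Algebra F K] [IsScalarTower E F K] (ρ : (M ≃ₐ[E] M) →* (K ≃ₐ[E] K)) {m : ℕ}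
    (z : Fin (m + 1) → K) : Prop :=
  ∃ (e : Ideal (𝓞 M) → ℕ) (w : Ideal (𝓞 M) → Fin (m + 1) → ℕ),
    GHL (𝓞 E) (𝓞 M) M F K (M ≃ₐ[E] M) Unit (IsScalarTower.toAlgHom (𝓞 E) F K) (RS E K ρ)
      (TT E M) m (fun _ => z) ∧
    WD (𝓞 E) (𝓞 M) K (M ≃ₐ[E] M) (RS E K ρ) (TT E M) z e w

theorem wwd_of [IsGalois E M] (hT : S_TAMC) (ρ : (M ≃ₐ[E] M) →* (K ≃ₐ[E] K))
    (hρ : ∀ g x, ρ g (algebraMap M K x) = algebraMap M K (g x))
    (hfix : ∀ x, (∀ g, ρ g x = x) ↔ ∃ y : F, algebraMap F K y = x)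
    (hin : ∀ 𝔓 : Ideal (𝓞 M), 𝔓.IsMaximal → ∀ p : ℕ, p.Prime → (p : 𝓞 M) ∈ 𝔓 →
      ¬ p ^ 2 ∣ Nat.card (inert E 𝔓))
    (z : Fin (m + 1) → K) (hz : ∀ j, z j ≠ 0)
    (hgen : IntermediateField.adjoin M (Set.range fun j => z j / z 0) = ⊤)
    (hlin : ∀ g j, ρ g (z j) ∈ Submodule.span (𝓞 M) (Set.range z))
    (hrg : ∀ j, IsRegularRing (Algebra.adjoin (𝓞 M) (Set.range fun i => z i / z j)))
    (e : Ideal (𝓞 M) → ℕ) (w : Ideal (𝓞 M) → Fin (m + 1) → ℕ) (hD : DATA ρ z e w) :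
    WWD E M F K ρ z := by
  refine ⟨e, w, ?_, wd_of ρ hρ z e w hD⟩
  refine
  { toGE := ge_of hT ρ hρ hin
    lo := fun o => ⟨algebraMap (𝓞 M) M o, rfl⟩
    lf := ?_
    fixK := hfix
    z0 := fun _ => hz
    lin := fun g _ j => hlin g j
    gen := ?_
    ld := ?_
    rg := ?_ }
  · intro x
    obtain ⟨a, b, hb, rfl⟩ := IsFractionRing.div_surjective (A := 𝓞 M) x
    have hb0 : b ≠ 0 := nonZeroDivisors.ne_zero hb
    have hb' : algebraMap (𝓞 M) M b ≠ 0 := RingOfIntegers.coe_ne_zero_iff.2 hb0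
    refine ⟨a, b, hb0, ?_⟩
    rw [IsScalarTower.algebraMap_apply (𝓞 M) M K, IsScalarTower.algebraMap_apply (𝓞 M) M K,
      ← map_mul, div_mul_cancel₀ _ hb']
  · rw [← hgen]
    congr 1
    ext y
    constructor
    · rintro ⟨-, j, h⟩
      exact ⟨j, h.symm⟩
    · rintro ⟨j, h⟩
      exact ⟨(), j, h.symm⟩
  · intro S ω hω
    have hS : S = ∅ := by
      rw [Finset.eq_empty_iff_forall_notMem]
      intro ω' h
      exact hω (by cases ω; cases ω'; exact h)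
    subst hS
    have h1 : {y : K | ∃ ω' ∈ (∅ : Finset Unit), ∃ j, y = z j / z 0} = ∅ := by
      ext y
      constructor
      · rintro ⟨ω', h, -⟩
        exact absurd h (Finset.notMem_empty _)
      · intro h
        exact absurd h (Set.notMem_empty _)
    rw [h1, IntermediateField.adjoin_empty, IntermediateField.bot_toSubalgebra]
    exact Subalgebra.LinearDisjoint.bot_left _
  · intro J
    have h1 : {y : K | ∃ (ω : Unit) (i : Fin (m + 1)), y = z i / z (J ω)} =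
        Set.range fun i => z i / z (J ()) := by
      ext y
      constructor
      · rintro ⟨ω, i, h⟩
        exact ⟨i, h.symm⟩
      · rintro ⟨i, h⟩
        exact ⟨(), i, h.symm⟩
    rw [h1]
    exact hrg (J ())

/-- The quotients have good modules. -/
theorem tm_module (hLI : S_LINW) (hCH : S_CHW) (hRWB : S_RWB) (hREGL : S_REGL)
    {ρ : (M ≃ₐ[E] M) →* (K ≃ₐ[E] K)} {z : Fin (m + 1) → K} (hD : WWD E M F K ρ z)
    (M₀ : Submodule (𝓞 E) F) (hM₀ : M₀.FG) (P : Prop)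
    (hseg : P → Submodule.span M ((IsScalarTower.toAlgHom (𝓞 E) F K) '' (M₀ : Set F)) =
      Submodule.span M (Set.range z)) :
    ∃ M' : Submodule (𝓞 E) F, M'.FG ∧ (∃ f ∈ M', f ≠ 0) ∧
      (∀ f ∈ M', f ≠ 0 → ∀ y : F, ∃ b ∈ Pool.Agent.H918R2.Quad.chart (𝓞 E) M' f,
        ∃ c ∈ Pool.Agent.H918R2.Quad.chart (𝓞 E) M' f, c ≠ 0 ∧ y = b / c) ∧
      (∀ f ∈ M', f ≠ 0 → ∀ (q : Ideal (Pool.Agent.H918R2.Quad.chart (𝓞 E) M' f)) [q.IsPrime],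
        IsRegularLocalRing (Localization.AtPrime q)) ∧
      (P → ∃ n : ℕ, 1 ≤ n ∧ (∀ y ∈ M', y ∈ sat (M₀ ^ n)) ∧
        ∀ y : F, y ∈ M₀ ^ n → ∃ s : 𝓞 E, s ≠ 0 ∧ s • y ∈ M') := by
  obtain ⟨e, w, hG, hE⟩ := hD
  refine hLI (𝓞 E) (𝓞 M) M F K (M ≃ₐ[E] M) Unit (IsScalarTower.toAlgHom (𝓞 E) F K) (RS E K ρ)
    (TT E M) m (fun _ => z) hG ?_ M₀ hM₀ P ?_
  · intro Y₂ K₂ _ _ _ _ ι₂ εY ε ρ₂ hext s hs Tb N _ 𝔔 p l τ π hs0 hloc hw
    exact w_CH hCH hRWB hREGL (𝓞 E) (𝓞 M) M F Y₂ K K₂ (M ≃ₐ[E] M) _ ι₂ εY ε _ ρ₂ hext _ m z hG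
      e w hE s hs Tb N 𝔔 p l τ π hs0 hloc hw
  · intro h
    rw [hseg h]
    congr 1
    ext y
    constructor
    · rintro ⟨j, h⟩
      refine ⟨fun _ => j, ?_⟩
      simpa using h
    · rintro ⟨J, h⟩
      refine ⟨J (), ?_⟩
      simpa using h

theorem tm_good (hLI : S_LINW) (hCH : S_CHW) (hRWB : S_RWB) (hREGL : S_REGL)
    {ρ : (M ≃ₐ[E] M) →* (K ≃ₐ[E] K)} {z : Fin (m + 1) → K} (hD : WWD E M F K ρ z)
    {ι : Type} [Finite ι] (u : ι → F)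
    (hseg : Submodule.span M (Set.range fun i => algebraMap F K (u i)) =
      Submodule.span M (Set.range z)) :
    GoodModule (𝓞 E) u := by
  classical
  set M₀ : Submodule (𝓞 E) F := Submodule.span (𝓞 E) (Set.range u) with hM₀
  have hfg : M₀.FG := Submodule.fg_span (Set.finite_range u)
  have h1 : Submodule.span M ((IsScalarTower.toAlgHom (𝓞 E) F K) '' (M₀ : Set F)) =
      Submodule.span M (Set.range fun i => algebraMap F K (u i)) := by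
    apply le_antisymm
    · rw [Submodule.span_le]
      rintro _ ⟨y, hy, rfl⟩
      induction hy using Submodule.span_induction with
      | mem y hy =>
        obtain ⟨i, rfl⟩ := hy
        exact Submodule.subset_span ⟨i, rfl⟩
      | zero => rw [map_zero]; exact Submodule.zero_mem _
      | add a b _ _ ha hb => rw [map_add]; exact Submodule.add_mem _ ha hb
      | smul c a _ ha =>
        rw [map_smul]
        have h2 : c • (IsScalarTower.toAlgHom (𝓞 E) F K) a =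
            algebraMap E M (algebraMap (𝓞 E) E c) • (IsScalarTower.toAlgHom (𝓞 E) F K) a := by
          rw [Algebra.smul_def, Algebra.smul_def, ← IsScalarTower.algebraMap_apply E M K]
          rfl
        rw [h2]
        exact Submodule.smul_mem _ _ ha
    · rw [Submodule.span_le]
      rintro _ ⟨i, rfl⟩
      exact Submodule.subset_span ⟨u i, Submodule.subset_span ⟨i, rfl⟩, rfl⟩
  obtain ⟨M', hM'fg, hM'0, -, hreg, hmo⟩ := tm_module hLI hCH hRWB hREGL hD M₀ hfg True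
    (fun _ => h1.trans hseg)
  obtain ⟨n, hn, hle, hge⟩ := hmo trivial
  have hpow : M₀ ^ n = Submodule.span (𝓞 E) (Set.range u ^ n) := Submodule.span_pow _ _
  refine Pool.Agent.Y223.INV.goodModule_of (E := E) hn hM'fg hM'0 one_ne_zero ?_ ?_ hreg
  · intro f hf
    rw [one_mul]
    obtain ⟨c, hc, hcf⟩ := hle f hf
    rw [hpow] at hcf
    have h2 : (algebraMap (𝓞 E) E c) • f ∈ Submodule.span E (Set.range u ^ n) := by
      have h3 := Submodule.span_subset_span (𝓞 E) E _ hcf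
      rwa [← algebraMap_smul E c f] at h3
    have hc0 : algebraMap (𝓞 E) E c ≠ 0 := RingOfIntegers.coe_ne_zero_iff.2 hc
    have h3 := Submodule.smul_mem _ (algebraMap (𝓞 E) E c)⁻¹ h2
    rwa [smul_smul, inv_mul_cancel₀ hc0, one_smul] at h3
  · intro y hy
    obtain ⟨c, hc, hcy⟩ := Pool.Agent.W418.exists_smul_span (O := 𝓞 E) (K := E)
      (Set.range u ^ n) y hy
    rw [← hpow] at hcy
    obtain ⟨d, hd, hdy⟩ := hge _ hcy
    refine ⟨d * c, mul_ne_zero hd hc, ?_⟩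
    rw [div_one, mul_smul]
    exact hdy

theorem tm_model_O (hLI : S_LINW) (hCH : S_CHW) (hRWB : S_RWB) (hREGL : S_REGL)
    {ρ : (M ≃ₐ[E] M) →* (K ≃ₐ[E] K)} {z : Fin (m + 1) → K} (hD : WWD E M F K ρ z)
    {n : ℕ} (u : Fin (n + 1) → F)
    (hseg : Submodule.span M (Set.range fun i => algebraMap F K (u i)) =
      Submodule.span M (Set.range z))
    (π : MvPolynomial (Fin (n + 1)) E →ₐ[E] A)
    (hπ : Function.Surjective π) (𝒜 : ℕ → Submodule E A) [GradedAlgebra 𝒜]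
    (h𝒜 : ∀ d, 𝒜 d = (homogeneousSubmodule (Fin (n + 1)) E d).map π.toLinearMap)
    (hu : ∀ d, ∀ P ∈ homogeneousSubmodule (Fin (n + 1)) E d, π P = 0 ↔ aeval u P = 0)
    {Y : Scheme.{0}} (f : Y ⟶ Spec (CommRingCat.of E)) (i : Y ≅ Proj 𝒜)
    (hi : i.hom ≫ GO.projStr 𝒜 = f) : GO.HasModel (𝓞 E) E f := by
  have hM := tm_good hLI hCH hRWB hREGL hD u hseg
  obtain ⟨ε, hε, hεgen, hε1⟩ := Pool.Agent.Y223.INV.exists_eps2 u π hπ 𝒜 h𝒜 hu
  exact hasModel_of_goodModule (O := 𝓞 E) 𝒜 ε hε hεgen u hε1 hM f i hi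

theorem tm_model_Z (hLI : S_LINW) (hCH : S_CHW) (hRWB : S_RWB) (hREGL : S_REGL)
    {ρ : (M ≃ₐ[E] M) →* (K ≃ₐ[E] K)} {z : Fin (m + 1) → K} (hD : WWD E M F K ρ z)
    {n : ℕ} (u : Fin (n + 1) → F)
    (hseg : Submodule.span M (Set.range fun i => algebraMap F K (u i)) =
      Submodule.span M (Set.range z))
    (π : MvPolynomial (Fin (n + 1)) E →ₐ[E] A)
    (hπ : Function.Surjective π) (𝒜 : ℕ → Submodule E A) [GradedAlgebra 𝒜]
    (h𝒜 : ∀ d, 𝒜 d = (homogeneousSubmodule (Fin (n + 1)) E d).map π.toLinearMap)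
    (hu : ∀ d, ∀ P ∈ homogeneousSubmodule (Fin (n + 1)) E d, π P = 0 ↔ aeval u P = 0)
    (Y : Scheme.{0}) (hY : Nonempty (Y ≅ Proj 𝒜)) : HasRegularModel Y := by
  have hM := tm_good hLI hCH hRWB hREGL hD u hseg
  obtain ⟨ε, hε, hεgen, hε1⟩ := Pool.Agent.Y223.INV.exists_eps2 u π hπ 𝒜 h𝒜 hu
  exact hasRegularModel_of_goodModule (O := 𝓞 E) 𝒜 ε hε hεgen u hε1 hM Y hY

/-- The function field has a regular proper model. -/
theorem tm_model_F (hLI : S_LINW) (hCH : S_CHW) (hRWB : S_RWB) (hREGL : S_REGL)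
    {ρ : (M ≃ₐ[E] M) →* (K ≃ₐ[E] K)} {z : Fin (m + 1) → K} (hD : WWD E M F K ρ z)
    {Y : Type} [Field Y] (i : Y ≃+* F) :
    ∃ (X' : Scheme.{0}) (_ : IsIntegral X') (g : X' ⟶ Spec (CommRingCat.of ℤ)),
      IsProper g ∧
      (∀ x : X',
        (((Module.finrank (IsLocalRing.ResidueField (X'.presheaf.stalk x))
            (IsLocalRing.CotangentSpace (X'.presheaf.stalk x)) : ℕ∞)) : WithBot ℕ∞)
          = ringKrullDim (X'.presheaf.stalk x)) ∧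
      Nonempty (X'.functionField ≃+* Y) := by
  have hinj : Function.Injective (algebraMap (𝓞 E) F) := by
    rw [IsScalarTower.algebraMap_eq (𝓞 E) E F]
    exact (algebraMap E F).injective.comp RingOfIntegers.coe_injective
  obtain ⟨M', h1, h2, h3, h4, -⟩ := tm_module hLI hCH hRWB hREGL hD ⊥ Submodule.fg_bot False
    (fun h => h.elim)
  obtain ⟨X', hX', g, hg, hreg', ⟨i'⟩⟩ := model_of_hasModule hinj
    (show HasModule (𝓞 E) F from ⟨M', h1, h2, h3, h4⟩)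
  exact ⟨X', hX', g, hg, hreg', ⟨i'.trans i.symm⟩⟩

end

end Pool.Agent.R383.TM
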